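import Mathlib

/-!
# Chains of centralisers of matrices

If `x i`, `y i` are endomorphisms of a space of dimension `r`, indexed by a linear order, such
that `x j` commutes with `y i` for `j < i` but `x i` does not commute with `y i`, then there are at
most `2 * r - 2` indices.
-/

set_option autoImplicit false

namespace Pool.Agent.PB3

open Module

variable {V : Type*} [AddCommGroup V] [Module ℂ V]

/-- a vector outside the kernels of finitely many nonzero maps -/
theorem exists_generic {W ι : Type*} [AddCommGroup W] [Module ℂ W] [Finite ι]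
    (c : ι → V →ₗ[ℂ] W) (hc : ∀ i, c i ≠ 0) : ∃ v, ∀ i, c i v ≠ 0 := by
  classical
  have := Fintype.ofFinite ι
  set s : Finset (Submodule ℂ V) := Finset.univ.image (fun i => LinearMap.ker (c i)) with hs
  have htop : (⊤ : Submodule ℂ V) ∉ s := by
    intro h
    rw [hs, Finset.mem_image] at h
    obtain ⟨i, -, h⟩ := h
    exact hc i (LinearMap.ker_eq_top.1 h)
  have h1 := Subspace.biUnion_ne_univ_of_top_notMem htop
  obtain ⟨v, hv⟩ := (Set.ne_univ_iff_exists_notMem _).1 h1
  refine ⟨v, fun i h0 => hv ?_⟩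
  refine Set.mem_iUnion₂.2 ⟨LinearMap.ker (c i), ?_, h0⟩
  rw [hs, Finset.mem_image]
  exact ⟨i, Finset.mem_univ i, rfl⟩

/-- **Chains of centralisers.** -/
theorem chain_bound [FiniteDimensional ℂ V] [Nontrivial V] {ι : Type*} [Fintype ι]
    [LinearOrder ι] (x y : ι → V →ₗ[ℂ] V) (h0 : ∀ i, x i ∘ₗ y i ≠ y i ∘ₗ x i)
    (h1 : ∀ j i, j < i → x j ∘ₗ y i = y i ∘ₗ x j) : Fintype.card ι + 2 ≤ 2 * finrank ℂ V := by
  classical
  -- the generic vector and functional
  obtain ⟨v, hv⟩ := exists_generic (ι := Option ι)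
    (fun o => o.elim LinearMap.id (fun i => x i ∘ₗ y i - y i ∘ₗ x i)) (by
      rintro (_ | i)
      · show (LinearMap.id : V →ₗ[ℂ] V) ≠ 0
        obtain ⟨u, hu⟩ := exists_ne (0 : V)
        intro h
        exact hu (LinearMap.congr_fun h u)
      · show x i ∘ₗ y i - y i ∘ₗ x i ≠ 0
        rw [Ne, sub_eq_zero]
        exact h0 i)
  have hv0 : v ≠ 0 := hv none
  have hvi : ∀ i, x i (y i v) - y i (x i v) ≠ 0 := fun i => hv (some i)
  obtain ⟨φ, hφ⟩ := exists_generic (V := V →ₗ[ℂ] ℂ) (W := ℂ) (ι := Option ι)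
    (fun o => o.elim (LinearMap.applyₗ v)
      (fun i => LinearMap.applyₗ (x i (y i v) - y i (x i v)))) (by
      have key : ∀ w : V, w ≠ 0 → (LinearMap.applyₗ w : (V →ₗ[ℂ] ℂ) →ₗ[ℂ] ℂ) ≠ 0 := by
        intro w hw h
        apply hw
        rw [← Module.forall_dual_apply_eq_zero_iff ℂ w]
        intro f
        exact LinearMap.congr_fun h f
      rintro (_ | i)
      · exact key v hv0
      · exact key _ (hvi i))
  have hφv : φ v ≠ 0 := hφ none
  have hφi : ∀ i, φ (x i (y i v) - y i (x i v)) ≠ 0 := fun i => hφ (some i)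
  -- the linear map
  let X : ((ι → ℂ) × ℂ) →ₗ[ℂ] (V →ₗ[ℂ] V) :=
    { toFun := fun p => ∑ j, p.1 j • x j + p.2 • LinearMap.id
      map_add' := fun p q => by
        simp only [Prod.fst_add, Prod.snd_add, Pi.add_apply, add_smul, Finset.sum_add_distrib]
        abel
      map_smul' := fun c p => by
        simp only [Prod.smul_fst, Prod.smul_snd, Pi.smul_apply, smul_eq_mul, mul_smul,
          RingHom.id_apply, smul_add, Finset.smul_sum] }
  let Ψ : ((ι → ℂ) × ℂ) →ₗ[ℂ] (V × (V →ₗ[ℂ] ℂ)) :=
    { toFun := fun p => (X p v, φ ∘ₗ X p)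
      map_add' := fun p q => by
        rw [map_add]
        refine Prod.ext rfl ?_
        ext u
        simp
      map_smul' := fun c p => by
        rw [map_smul]
        refine Prod.ext rfl ?_
        ext u
        simp }
  have hinj : LinearMap.ker Ψ = ⊥ := by
    rw [LinearMap.ker_eq_bot']
    rintro ⟨α, β⟩ hp
    have hp1 : X (α, β) v = 0 := congrArg Prod.fst hp
    have hp2 : ∀ u, φ (X (α, β) u) = 0 := fun u =>
      LinearMap.congr_fun (congrArg Prod.snd hp) u
    have hXa : ∀ u, X (α, β) u = ∑ j, α j • x j u + β • u := by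
      intro u
      show (∑ j, α j • x j + β • LinearMap.id : V →ₗ[ℂ] V) u = _
      rw [LinearMap.add_apply, LinearMap.sum_apply]
      rfl
    have hα : ∀ i, α i = 0 := by
      intro i
      induction i using WellFoundedGT.induction with
      | ind i ih =>
        have h2 : φ (X (α, β) (y i v)) - φ (y i (X (α, β) v)) = 0 := by
          rw [hp2, hp1, map_zero, map_zero, sub_zero]
        have h3 : φ (X (α, β) (y i v)) - φ (y i (X (α, β) v)) =
            ∑ j, α j * φ (x j (y i v) - y i (x j v)) := by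
          rw [hXa, hXa]
          simp only [map_add, map_sum, map_smul, smul_eq_mul, map_sub, mul_sub,
            Finset.sum_sub_distrib]
          ring
        rw [h3, Finset.sum_eq_single i] at h2
        · exact (mul_eq_zero.1 h2).resolve_right (hφi i)
        · intro j _ hji
          rcases lt_or_gt_of_ne hji with hlt | hgt
          · have h4 : x j (y i v) = y i (x j v) := LinearMap.congr_fun (h1 j i hlt) v
            rw [h4, sub_self, map_zero, mul_zero]
          · rw [ih j hgt, zero_mul]
        · intro h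
          exact absurd (Finset.mem_univ i) h
    have hβ : β = 0 := by
      have h2 := hp1
      rw [hXa] at h2
      simp only [hα, zero_smul, Finset.sum_const_zero, zero_add] at h2
      exact (smul_eq_zero.1 h2).resolve_right hv0
    refine Prod.ext (funext hα) hβ
  -- the hyperplane
  let L : (V × (V →ₗ[ℂ] ℂ)) →ₗ[ℂ] ℂ :=
    φ ∘ₗ LinearMap.fst ℂ V (V →ₗ[ℂ] ℂ) - (LinearMap.applyₗ v) ∘ₗ LinearMap.snd ℂ V (V →ₗ[ℂ] ℂ)
  have hL : ∀ p, L p = φ p.1 - p.2 v := fun _ => rfl
  have hle : LinearMap.range Ψ ≤ LinearMap.ker L := by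
    rintro _ ⟨p, rfl⟩
    rw [LinearMap.mem_ker, hL]
    show φ (X p v) - φ (X p v) = 0
    exact sub_self _
  have hLne : LinearMap.ker L ≠ ⊤ := by
    intro h
    have : ((v, 0) : V × (V →ₗ[ℂ] ℂ)) ∈ LinearMap.ker L := by
      rw [h]; exact Submodule.mem_top
    rw [LinearMap.mem_ker, hL] at this
    simp at this
    exact hφv this
  have h2 := Submodule.finrank_mono hle
  have h3 := Submodule.finrank_lt hLne
  have h4 := LinearMap.finrank_range_of_inj (LinearMap.ker_eq_bot.1 hinj)
  rw [h4] at h2
  rw [Module.finrank_prod, Module.finrank_pi, Module.finrank_self] at h2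
  rw [Module.finrank_prod, Module.finrank_linearMap, Module.finrank_self, mul_one] at h3
  omega

end Pool.Agent.PB3
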