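import Pool.Agent.PB3.Clif
import Pool.Agent.PB3.Chain

/-!
# The number of active strands

An irreducible family of rank `r` with the relations of the pure braid group has at most
`4 * (r - 1)` active strands.
-/

set_option autoImplicit false

namespace Pool.Agent.PB3

open Pool.Agent.Conf14 (PB)
open Module

variable {n : ℕ} {V : Type*} [AddCommGroup V] [Module ℂ V]
  {a : Fin n → Fin n → (V ≃ₗ[ℂ] V)}

/-- a generator which is not a scalar does not commute with some generator on the same strand -/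
theorem exists_noncomm [FiniteDimensional ℂ V] [Nontrivial V] (h : PB a) (hirr : IrrF a)
    {j k : Fin n} (hjk : j ≠ k) (hc : ¬ Cen (a j k)) :
    ∃ l, l ≠ j ∧ ¬ Commute (a j k) (a j l) := by
  by_contra hcon
  push Not at hcon
  apply hc
  obtain ⟨c, hc⟩ := schur (S := {f | ∃ p q, p ≠ q ∧ f = a p q}) (by
      intro U hU
      exact hirr U fun p q hpq => hU _ ⟨p, q, hpq, rfl⟩) (a j k) (by
    rintro f ⟨p, q, hpq, rfl⟩
    have hk : ∀ q, q ≠ k → Commute (a j k) (a k q) := by
      intro q hq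
      by_cases hqj : q = j
      · rw [hqj, h.symm k j]
      · exact ((h.conj (s := j) hjk (Ne.symm hqj) hq.symm hjk.symm).2 (hcon q hqj)).symm
    by_cases hp : p = j
    · rw [hp]; exact hcon q (by rw [← hp]; exact hpq.symm)
    by_cases hq : q = j
    · rw [hq, h.symm p j]
      exact hcon p (by rw [← hq]; exact hpq)
    by_cases hp2 : p = k
    · rw [hp2]; exact hk q (by rw [← hp2]; exact hpq.symm)
    by_cases hq2 : q = k
    · rw [hq2, h.symm p k]
      exact hk p (by rw [← hq2]; exact hpq)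
    have h1 : Commute (a p j) (a p k) := by
      rw [h.symm p j, h.symm p k]
      exact ((h.conj (s := j) hjk (Ne.symm hp) (Ne.symm hp2) hp).2 (hcon p hp)).symm
    exact (h.conj (s := p) hp hp2 hjk hpq.symm).2 h1)
  exact cen_of_scalar hc

theorem comp_eq_of_commute {x y : V ≃ₗ[ℂ] V} (h : Commute x y) :
    (x : V →ₗ[ℂ] V) ∘ₗ (y : V →ₗ[ℂ] V) = (y : V →ₗ[ℂ] V) ∘ₗ (x : V →ₗ[ℂ] V) := by
  ext u
  exact LinearEquiv.congr_fun h.eq u

theorem commute_of_comp_eq {x y : V ≃ₗ[ℂ] V}
    (h : (x : V →ₗ[ℂ] V) ∘ₗ (y : V →ₗ[ℂ] V) = (y : V →ₗ[ℂ] V) ∘ₗ (x : V →ₗ[ℂ] V)) :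
    Commute x y :=
  LinearEquiv.ext fun u => LinearMap.congr_fun h u

/-- chains of centralisers for automorphisms -/
theorem chain_equiv [FiniteDimensional ℂ V] [Nontrivial V] {ι : Type*} [Fintype ι]
    [LinearOrder ι] (x y : ι → V ≃ₗ[ℂ] V) (h0 : ∀ i, ¬ Commute (x i) (y i))
    (h1 : ∀ j i, j < i → Commute (x j) (y i)) : Fintype.card ι + 2 ≤ 2 * finrank ℂ V :=
  chain_bound (fun i => (x i : V →ₗ[ℂ] V)) (fun i => (y i : V →ₗ[ℂ] V))
    (fun i h => h0 i (commute_of_comp_eq h)) (fun j i hji => comp_eq_of_commute (h1 j i hji))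

/-- pairs which commute with each other -/
theorem commuting_bound [FiniteDimensional ℂ V] [Nontrivial V] {ι : Type*} [Fintype ι]
    [LinearOrder ι] (x y : ι → V ≃ₗ[ℂ] V) (h0 : ∀ i, ¬ Commute (x i) (y i))
    (hxx : ∀ j i, j ≠ i → Commute (x j) (x i)) (hxy : ∀ j i, j ≠ i → Commute (x j) (y i)) :
    Fintype.card ι + 1 ≤ finrank ℂ V := by
  have h := chain_equiv (ι := ι ⊕ₗ ι) (fun p => Sum.elim x y (ofLex p))
    (fun p => Sum.elim y x (ofLex p)) (by
      rintro (i | i)
      · exact h0 i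
      · exact fun h' => h0 i h'.symm) (by
      rintro (j | j) (i | i) hji
      · have : j < i := Sum.Lex.inl_lt_inl_iff.1 hji
        exact hxy j i this.ne
      · by_cases hij : j = i
        · subst hij
          exact Commute.refl _
        · exact hxx j i hij
      · exact absurd hji Sum.Lex.not_inr_lt_inl
      · have : j < i := Sum.Lex.inr_lt_inr_iff.1 hji
        exact (hxy i j this.ne').symm)
  have h2 : Fintype.card (ι ⊕ₗ ι) = Fintype.card ι + Fintype.card ι := Fintype.card_sum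
  omega

/-- **The number of active strands.** -/
theorem card_act [FiniteDimensional ℂ V] [Nontrivial V] (h : PB a) (hirr : IrrF a)
    (T : Finset (Fin n)) (hT : ∀ s ∈ T, Act a s) : T.card ≤ 4 * (finrank ℂ V - 1) := by
  classical
  -- a pair of generators on both sides
  set P : Fin n → Prop := fun s => ∃ j l, j < s ∧ s < l ∧ ¬ Commute (a s j) (a s l) with hP
  set M := T.filter P with hM
  set R := T.filter (fun s => ¬ P s ∧ ∃ p p', s < p ∧ s < p' ∧ ¬ Commute (a s p) (a s p'))
    with hR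
  set L := T.filter (fun s => ¬ P s ∧ ∃ p p', p < s ∧ p' < s ∧ ¬ Commute (a s p) (a s p'))
    with hL
  have hcover : T ⊆ M ∪ R ∪ L := by
    intro s hs
    obtain ⟨j, hj, hc⟩ := hT s hs
    obtain ⟨l, hl, hcl⟩ := exists_noncomm h hirr hj.symm hc
    by_cases hPs : P s
    · exact Finset.mem_union_left _ (Finset.mem_union_left _ (Finset.mem_filter.2 ⟨hs, hPs⟩))
    rcases lt_or_gt_of_ne hj with h1 | h1 <;> rcases lt_or_gt_of_ne hl with h2 | h2
    · exact Finset.mem_union_right _ (Finset.mem_filter.2 ⟨hs, hPs, j, l, h1, h2, hcl⟩)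
    · exact absurd ⟨j, l, h1, h2, hcl⟩ hPs
    · exact absurd ⟨l, j, h2, h1, fun h' => hcl h'.symm⟩ hPs
    · exact Finset.mem_union_left _ (Finset.mem_union_right _
        (Finset.mem_filter.2 ⟨hs, hPs, j, l, h1, h2, hcl⟩))
  -- strands with generators which do not commute on both sides
  have hMcard : M.card + 2 ≤ 2 * finrank ℂ V := by
    have hch : ∀ s : M, ∃ j l, j < s.1 ∧ s.1 < l ∧ ¬ Commute (a s.1 j) (a s.1 l) := fun s =>
      (Finset.mem_filter.1 s.2).2
    choose j l hj hl hc using hch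
    have := chain_equiv (ι := M) (fun s => a s.1 (j s)) (fun s => a s.1 (l s)) hc (by
      intro s' s hlt
      have hlt' : s'.1 < s.1 := hlt
      have := h.q1 _ _ _ _ (hj s') hlt' (hl s)
      show Commute (a s'.1 (j s')) (a s.1 (l s))
      rw [h.symm s'.1 (j s')]
      exact this)
    rwa [Fintype.card_coe] at this
  -- flat strands
  have hflat : ∀ s, ¬ P s → ∀ j l, j < s → s < l → Commute (a s j) (a s l) := by
    intro s hs j l h1 h2
    by_contra hc
    exact hs ⟨j, l, h1, h2, hc⟩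
  have hstr : ∀ s, ¬ P s → ∀ j l, j < s → s < l → ∀ i, i ≠ s → Commute (a j l) (a s i) := by
    intro s hs j l h1 h2 i hi
    exact (h.conj h1.ne' h2.ne (h1.trans h2).ne hi).2 (hflat s hs j l h1 h2)
  have hRR : ∀ s' s, ¬ P s → s' < s → ∀ p p', s' < p → s < p' →
      Commute (a s' p) (a s p') := by
    intro s' s hs hlt p p' hp hp'
    rcases lt_trichotomy p s with h1 | h1 | h1
    · exact h.q1 _ _ _ _ hp h1 hp'
    · rw [h1, h.symm s' s]
      exact hflat s hs _ _ hlt hp'
    · exact hstr s hs _ _ hlt h1 _ hp'.ne'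
  have hLL : ∀ s s', ¬ P s → s < s' → ∀ p p', p < s' → p' < s →
      Commute (a s' p) (a s p') := by
    intro s s' hs hlt p p' hp hp'
    rw [h.symm s' p]
    rcases lt_trichotomy p s with h1 | h1 | h1
    · exact hstr s hs _ _ h1 hlt _ hp'.ne
    · rw [h1]
      exact (hflat s hs _ _ hp' hlt).symm
    · rw [h.symm s p']
      exact (h.q1 _ _ _ _ hp' h1 hp).symm
  have hRcard : R.card + 1 ≤ finrank ℂ V := by
    have hch : ∀ s : R, ∃ p p', s.1 < p ∧ s.1 < p' ∧ ¬ Commute (a s.1 p) (a s.1 p') := fun s =>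
      (Finset.mem_filter.1 s.2).2.2
    have hnP : ∀ s : R, ¬ P s.1 := fun s => (Finset.mem_filter.1 s.2).2.1
    choose p p' hp hp' hc using hch
    have key : ∀ s' s : R, s' ≠ s → ∀ q q', s'.1 < q → s.1 < q' →
        Commute (a s'.1 q) (a s.1 q') := by
      intro s' s hne q q' hq hq'
      rcases lt_or_gt_of_ne (fun h' => hne (Subtype.ext h') : s'.1 ≠ s.1) with h1 | h1
      · exact hRR _ _ (hnP s) h1 _ _ hq hq'
      · exact (hRR _ _ (hnP s') h1 _ _ hq' hq).symm
    have := commuting_bound (ι := R) (fun s => a s.1 (p s)) (fun s => a s.1 (p' s)) hc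
      (fun s' s hne => key s' s hne _ _ (hp s') (hp s))
      (fun s' s hne => key s' s hne _ _ (hp s') (hp' s))
    rwa [Fintype.card_coe] at this
  have hLcard : L.card + 1 ≤ finrank ℂ V := by
    have hch : ∀ s : L, ∃ p p', p < s.1 ∧ p' < s.1 ∧ ¬ Commute (a s.1 p) (a s.1 p') := fun s =>
      (Finset.mem_filter.1 s.2).2.2
    have hnP : ∀ s : L, ¬ P s.1 := fun s => (Finset.mem_filter.1 s.2).2.1
    choose p p' hp hp' hc using hch
    have key : ∀ s' s : L, s' ≠ s → ∀ q q', q < s'.1 → q' < s.1 →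
        Commute (a s'.1 q) (a s.1 q') := by
      intro s' s hne q q' hq hq'
      rcases lt_or_gt_of_ne (fun h' => hne (Subtype.ext h') : s'.1 ≠ s.1) with h1 | h1
      · exact (hLL _ _ (hnP s') h1 _ _ hq' hq).symm
      · exact hLL _ _ (hnP s) h1 _ _ hq hq'
    have := commuting_bound (ι := L) (fun s => a s.1 (p s)) (fun s => a s.1 (p' s)) hc
      (fun s' s hne => key s' s hne _ _ (hp s') (hp s))
      (fun s' s hne => key s' s hne _ _ (hp s') (hp' s))
    rwa [Fintype.card_coe] at this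
  have h1 := Finset.card_le_card hcover
  have h2 := Finset.card_union_le (M ∪ R) L
  have h3 := Finset.card_union_le M R
  omega

end Pool.Agent.PB3
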