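import Pool.Agent.Conf14.Defs

/-!
# The notions in the statements

The homomorphisms from the pure braid group to the free group of rank two (the fundamental group
of the line minus three points) given by three and by four strands, the homomorphisms which
forget strands, and the kinds of representations in the statements.
-/

set_option autoImplicit false

namespace Pool.Agent.PB3

open Pool.Agent.Conf14
open FreeGroup (of)

/-- `q` is the map which forgets all strands but `i < j < k`, followed by the quotient by the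
full twist -/
def IsForget {n : ℕ} (q : PureBraid n → FreeGroup (Fin 2)) : Prop :=
  ∃ (i j k : Fin n) (hij : i < j) (hjk : j < k),
    q (A i j hij) = of 0 ∧ q (A j k hjk) = of 1 ∧
    q (A i k (hij.trans hjk)) = (of 1 * of 0)⁻¹ ∧
    ∀ s t (h : s < t), ¬ ((s = i ∨ s = j ∨ s = k) ∧ (t = i ∨ t = j ∨ t = k)) → q (A s t h) = 1

/-- `q` is the map given by the cross ratio of the strands `i < j < k < l` -/
def IsCross {n : ℕ} (q : PureBraid n → FreeGroup (Fin 2)) : Prop :=
  ∃ (i j k l : Fin n) (hij : i < j) (hjk : j < k) (hkl : k < l),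
    q (A i j hij) = of 0 ∧ q (A k l hkl) = of 0 ∧
    q (A j k hjk) = of 1 ∧ q (A i l ((hij.trans hjk).trans hkl)) = of 1 ∧
    q (A i k (hij.trans hjk)) = (of 1 * of 0)⁻¹ ∧
    q (A j l (hjk.trans hkl)) = (of 0 * of 1)⁻¹ ∧
    ∀ s t (h : s < t), ¬ ((s = i ∨ s = j ∨ s = k ∨ s = l) ∧ (t = i ∨ t = j ∨ t = k ∨ t = l)) →
      q (A s t h) = 1

variable {m n : ℕ} {V : Type*} [AddCommGroup V] [Module ℂ V]

/-- `F` is the homomorphism which forgets the strands outside the image of `e` -/
def IsForgetful (e : Fin m ↪o Fin n) (F : PureBraid n → PureBraid m) : Prop :=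
  (∀ i j (h : i < j), F (A (e i) (e j) (e.strictMono h)) = A i j h) ∧
    ∀ s t (h : s < t), ¬ (s ∈ Set.range e ∧ t ∈ Set.range e) → F (A s t h) = 1

/-- Cohomology classes of the compactified cyclic cover given by `t`: the homomorphisms
`ker t → ℂ` which vanish on the loops around the punctures. -/
def IsH1 (t : Fin n → ℂˣ) (f : ker t → ℂ) : Prop :=
  (∀ g h, f (g * h) = f g + f h) ∧ ∀ g : ker t, Peripheral (g : FreeGroup (Fin n)) → f g = 0

/-- the eigenvalues of the generators `A i j` are roots of unity -/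
def RootEig (ρ : PureBraid n → V →ₗ[ℂ] V) : Prop :=
  ∀ (i j : Fin n) (h : i < j) (μ : ℂ), Module.End.HasEigenvalue (ρ (A i j h)) μ →
    ∃ k : ℕ, 0 < k ∧ μ ^ k = 1

/-- `ρ` is, up to a character `χ`, a subrepresentation of the first cohomology of the cyclic
cover given by `t`; if the eigenvalues of the generators are roots of unity, then `t` and `χ`
have finite order. -/
def InCyclicCovers (ρ : PureBraid n → V →ₗ[ℂ] V) : Prop :=
  ∃ (t : Fin n → ℂˣ) (χ : PureBraid n →* ℂˣ) (ι : V →ₗ[ℂ] (ker t → ℂ)),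
    Function.Injective ι ∧ (∀ x, IsH1 t (ι x)) ∧
    (∀ (β : PureBraid n) (x : V) (u : ker t), ∃ h : β.1 u.1 ∈ ker t,
      ι (ρ β x) ⟨β.1 u.1, h⟩ = χ β * ι x u) ∧
    (RootEig ρ → ∃ N : ℕ, 0 < N ∧ (∀ i, t i ^ N = 1) ∧ ∀ g, χ g ^ N = 1)

/-- `ρ` is, up to a character `χ`, the pullback of a representation `σ` of the fundamental group
of the line minus three points under a forgetful map or a cross ratio map; if the eigenvalues of
the generators are roots of unity, then `χ` has finite order. -/
def FromLine (ρ : PureBraid n → V →ₗ[ℂ] V) : Prop :=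
  ∃ (q : PureBraid n →* FreeGroup (Fin 2)) (σ : Representation ℂ (FreeGroup (Fin 2)) V)
    (χ : PureBraid n →* ℂˣ), (IsForget q ∨ IsCross q) ∧ (∀ g, ρ g = (χ g : ℂ) • σ (q g)) ∧
    (RootEig ρ → ∃ N : ℕ, 0 < N ∧ ∀ g, χ g ^ N = 1)

end Pool.Agent.PB3
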