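import Pool.Agent.Conf14.Art
import Pool.Agent.PB3.Defs

/-!
# The forgetful maps and the cross ratio maps of the pure braid group

The homomorphisms of the pure braid group on `n` strands to the free group of rank two (the
fundamental group of the line minus three points) given by three strands and by four strands.
-/

set_option autoImplicit false

namespace Pool.Agent.PB3

open Pool.Agent.Conf14
open FreeGroup (of lift lift_apply_of)

/-- the centre of the free group of rank two is trivial -/
theorem center_free (e : FreeGroup (Fin 2)) (h : ∀ g, e * g = g * e) : e = 1 := by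
  by_contra hne
  have hw : e.toWord ≠ [] := fun h' => hne (FreeGroup.toWord_eq_nil_iff.1 h')
  obtain ⟨⟨i, b⟩, L, hL⟩ := List.exists_cons_of_ne_nil hw
  obtain ⟨c, hc⟩ : ∃ c : Fin 2, c ≠ i := by
    by_cases h0 : i = 0
    · exact ⟨1, by rw [h0]; decide⟩
    · exact ⟨0, Ne.symm h0⟩
  have h1 : (of c * e).toWord = (c, true) :: e.toWord := by
    rw [FreeGroup.toWord_mul, FreeGroup.toWord_of, List.singleton_append, FreeGroup.reduce.cons,
      FreeGroup.reduce_toWord, hL]
    simp [hc]
  have h2 : (e * of c).toWord.Sublist (e.toWord ++ (of c).toWord) :=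
    FreeGroup.toWord_mul_sublist e (of c)
  rw [h, h1] at h2
  have h3 : (c, true) :: e.toWord = e.toWord ++ (of c).toWord := by
    apply h2.eq_of_length
    rw [FreeGroup.toWord_of]
    simp
  rw [hL] at h3
  have h4 := List.head_eq_of_cons_eq h3
  exact hc (congrArg Prod.fst h4)

/-- a homomorphism from a functional relation -/
theorem hom_of_rel {G H : Type*} [Group G] [Group H] (S : Set G) (R : G → H → Prop)
    (h1 : R 1 1) (hm : ∀ g g' x x', R g x → R g' x' → R (g * g') (x * x'))
    (hi : ∀ g x, R g x → R g⁻¹ x⁻¹) (hu : ∀ x, R 1 x → x = 1) (hS : ∀ g ∈ S, ∃ x, R g x) :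
    ∃ q : Subgroup.closure S →* H, ∀ (g : Subgroup.closure S) x, R g x → q g = x := by
  classical
  have huniq : ∀ g x y, R g x → R g y → x = y := by
    intro g x y hx hy
    have := hm _ _ _ _ hx (hi _ _ hy)
    rw [mul_inv_cancel] at this
    exact mul_inv_eq_one.1 (hu _ this)
  have hex : ∀ g : Subgroup.closure S, ∃ x, R g x := by
    rintro ⟨g, hg⟩
    induction hg using Subgroup.closure_induction with
    | mem g hg => exact hS g hg
    | one => exact ⟨1, h1⟩
    | mul g g' _ _ hx hx' =>
      obtain ⟨x, hx⟩ := hx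
      obtain ⟨x', hx'⟩ := hx'
      exact ⟨_, hm _ _ _ _ hx hx'⟩
    | inv g _ hx =>
      obtain ⟨x, hx⟩ := hx
      exact ⟨_, hi _ _ hx⟩
  choose f hf using hex
  refine ⟨⟨⟨f, ?_⟩, ?_⟩, fun g x hx => huniq _ _ _ (hf g) hx⟩
  · exact huniq _ _ _ (hf 1) h1
  · intro g g'
    exact huniq _ _ _ (hf (g * g')) (hm _ _ _ _ (hf g) (hf g'))

variable {n : ℕ}

/-- an element which commutes with a generator in the kernel is in the kernel -/
theorem comm_ker (π : FreeGroup (Fin n) →* FreeGroup (Fin 2)) {w : Fin n} (hw : π (of w) = 1)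
    (y : FreeGroup (Fin n)) (hy : y * of w = of w * y) : π y = 1 := by
  classical
  let sw : Equiv.Perm (FreeGroup (Fin 2) × Bool) := Equiv.swap (1, false) (1, true)
  let mv : FreeGroup (Fin 2) → Equiv.Perm (FreeGroup (Fin 2) × Bool) := fun g =>
    (Equiv.mulLeft g).prodCongr (Equiv.refl Bool)
  let θ : FreeGroup (Fin n) →* Equiv.Perm (FreeGroup (Fin 2) × Bool) :=
    lift fun l => if l = w then sw else mv (π (of l))
  have hsw : ∀ p, (sw p).1 = p.1 := by
    intro p
    show (Equiv.swap _ _ p).1 = p.1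
    rw [Equiv.swap_apply_def]
    split_ifs with h1 h2
    · rw [h1]
    · rw [h2]
    · rfl
  have hfst : ∀ g p, (θ g p).1 = π g * p.1 := by
    intro g
    induction g using FreeGroup.induction_on with
    | C1 => intro p; simp
    | of l =>
      intro p
      have h0 : θ (of l) = if l = w then sw else mv (π (of l)) := lift_apply_of
      rw [h0]
      by_cases h : l = w
      · rw [if_pos h, hsw, h, hw, one_mul]
      · rw [if_neg h]
        rfl
    | inv_of l ih =>
      intro p
      have h1 := ih ((θ (of l))⁻¹ p)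
      have h2 : (θ (of l)) ((θ (of l))⁻¹ p) = p := (θ (of l)).apply_symm_apply p
      rw [h2] at h1
      rw [map_inv, map_inv, h1, inv_mul_cancel_left]
    | mul x y hx hy =>
      intro p
      rw [map_mul, map_mul, Equiv.Perm.mul_apply, hx, hy, mul_assoc]
  have hθw : θ (of w) = sw := by
    show lift _ (of w) = _
    rw [lift_apply_of, if_pos rfl]
  have h1 : ∀ p, θ y (sw p) = sw (θ y p) := by
    intro p
    have := congrArg θ hy
    rw [map_mul, map_mul, hθw] at this
    exact Equiv.congr_fun this p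
  by_contra hne
  have h2 := h1 (1, false)
  have h3 : sw (1, false) = (1, true) := Equiv.swap_apply_left _ _
  have h4 : (θ y (1, false)).1 ≠ 1 := by
    rw [hfst]
    simpa using hne
  have h5 : sw (θ y (1, false)) = θ y (1, false) := by
    apply Equiv.swap_apply_of_ne_of_ne
    · intro h; exact h4 (by rw [h])
    · intro h; exact h4 (by rw [h])
  rw [h3, h5] at h2
  have h6 := (θ y).injective h2
  simp at h6

/-- the projection to the free group of rank two given by three strands -/
def proj (i j k : Fin n) : FreeGroup (Fin n) →* FreeGroup (Fin 2) :=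
  lift fun l => if l = i then of 1 else if l = j then (of 0 * of 1)⁻¹ else if l = k then of 0
    else 1

section
variable {i j k : Fin n} (hij : i < j) (hjk : j < k)
include hij hjk

omit hij hjk in
theorem proj_i (_ : i < j) (_ : j < k) : proj i j k (of i) = of 1 := by
  rw [proj, lift_apply_of, if_pos rfl]

omit hjk in
theorem proj_j (_ : j < k) : proj i j k (of j) = (of 0 * of 1)⁻¹ := by
  rw [proj, lift_apply_of, if_neg hij.ne', if_pos rfl]

theorem proj_k : proj i j k (of k) = of 0 := by
  rw [proj, lift_apply_of, if_neg (hij.trans hjk).ne', if_neg hjk.ne', if_pos rfl]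

omit hij hjk in
theorem proj_o {l : Fin n} (h1 : l ≠ i) (h2 : l ≠ j) (h3 : l ≠ k) : proj i j k (of l) = 1 := by
  rw [proj, lift_apply_of, if_neg h1, if_neg h2, if_neg h3]

theorem proj_surj : Function.Surjective (proj i j k) := by
  intro x
  show x ∈ (proj i j k).range
  induction x using FreeGroup.induction_on with
  | C1 => exact one_mem _
  | of l =>
    fin_cases l
    · exact ⟨of k, proj_k hij hjk⟩
    · exact ⟨of i, proj_i hij hjk⟩
  | inv_of l ih => exact inv_mem ih
  | mul x y hx hy => exact mul_mem hx hy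

end

/-- conjugation of the projection -/
def Rel (i j k : Fin n) (β : MulAut (FreeGroup (Fin n))) (e : FreeGroup (Fin 2)) : Prop :=
  ∀ g, proj i j k (β g) = e * proj i j k g * e⁻¹

theorem Rel.of_gen {i j k : Fin n} {β : MulAut (FreeGroup (Fin n))} {e : FreeGroup (Fin 2)}
    (h : ∀ l, proj i j k (β (of l)) = e * proj i j k (of l) * e⁻¹) : Rel i j k β e := by
  have : (proj i j k).comp β.toMonoidHom = (MulAut.conj e).toMonoidHom.comp (proj i j k) := by
    apply FreeGroup.ext_hom
    intro l
    exact h l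
  intro g
  exact DFunLike.congr_fun this g

theorem rel_triv {i j k : Fin n} {s t : Fin n} (hst : s < t)
    (h : proj i j k (of s) = 1 ∨ proj i j k (of t) = 1) : Rel i j k (artin s t) 1 := by
  apply Rel.of_gen
  intro l
  rw [one_mul, inv_one, mul_one]
  by_cases h1 : l = s
  · subst h1
    rw [a_fst]
    rcases h with h | h <;> simp [h]
  by_cases h2 : l = t
  · subst h2
    rw [a_snd]
    rcases h with h | h <;> simp [h]
  by_cases h3 : s < l ∧ l < t
  · rw [a_mid _ _ _ h3.1 h3.2]
    rcases h with h | h <;> simp [h]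
  · rw [a_out _ _ _ h1 h2 h3]

section
variable {i j k : Fin n} (hij : i < j) (hjk : j < k)
include hij hjk

theorem rel_ij : Rel i j k (artin i j) (of 0) := by
  apply Rel.of_gen
  intro l
  by_cases h1 : l = i
  · subst h1
    rw [a_fst]
    simp only [map_mul, map_inv, proj_i hij hjk, proj_j hij hjk]
    group
  by_cases h2 : l = j
  · subst h2
    rw [a_snd]
    simp only [map_mul, map_inv, proj_i hij hjk, proj_j hij hjk]
    group
  by_cases h4 : l = k
  · subst h4
    rw [a_gt _ _ _ hij hjk]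
    rw [proj_k hij hjk]
    group
  · by_cases h3 : i < l ∧ l < j
    · rw [a_mid _ _ _ h3.1 h3.2]
      simp [proj_o h1 h2 h4]
    · rw [a_out _ _ _ h1 h2 h3]
      simp [proj_o h1 h2 h4]

theorem rel_jk : Rel i j k (artin j k) (of 1) := by
  apply Rel.of_gen
  intro l
  by_cases h1 : l = j
  · subst h1
    rw [a_fst]
    simp only [map_mul, map_inv, proj_k hij hjk, proj_j hij hjk]
    group
  by_cases h2 : l = k
  · subst h2
    rw [a_snd]
    simp only [map_mul, map_inv, proj_k hij hjk, proj_j hij hjk]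
    group
  by_cases h4 : l = i
  · subst h4
    rw [a_lt _ _ _ hjk hij]
    rw [proj_i hij hjk]
    group
  · by_cases h3 : j < l ∧ l < k
    · rw [a_mid _ _ _ h3.1 h3.2]
      simp [proj_o h4 h1 h2]
    · rw [a_out _ _ _ h1 h2 h3]
      simp [proj_o h4 h1 h2]

theorem rel_ik : Rel i j k (artin i k) (of 1 * of 0)⁻¹ := by
  apply Rel.of_gen
  intro l
  by_cases h1 : l = i
  · subst h1
    rw [a_fst]
    simp only [map_mul, map_inv, proj_i hij hjk, proj_k hij hjk]
    group
  by_cases h2 : l = k
  · subst h2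
    rw [a_snd]
    simp only [map_mul, map_inv, proj_i hij hjk, proj_k hij hjk]
    group
  by_cases h4 : l = j
  · subst h4
    rw [a_mid _ _ _ hij hjk]
    simp only [map_mul, map_inv, proj_i hij hjk, proj_j hij hjk, proj_k hij hjk]
    group
  · by_cases h3 : i < l ∧ l < k
    · rw [a_mid _ _ _ h3.1 h3.2]
      simp [proj_o h1 h4 h2]
    · rw [a_out _ _ _ h1 h2 h3]
      simp [proj_o h1 h4 h2]

theorem Rel.unique {e : FreeGroup (Fin 2)} (h : Rel i j k 1 e) : e = 1 := by
  apply center_free
  intro g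
  obtain ⟨x, rfl⟩ := proj_surj hij hjk g
  have h1 : proj i j k x = e * proj i j k x * e⁻¹ := h x
  nth_rewrite 2 [h1]
  group

/-- **the forgetful maps** -/
theorem exists_forget : ∃ q : PureBraid n →* FreeGroup (Fin 2),
    q (A i j hij) = of 0 ∧ q (A j k hjk) = of 1 ∧
    q (A i k (hij.trans hjk)) = (of 1 * of 0)⁻¹ ∧
    ∀ s t (h : s < t), ¬ ((s = i ∨ s = j ∨ s = k) ∧ (t = i ∨ t = j ∨ t = k)) →
      q (A s t h) = 1 := by
  have htriv : ∀ s t, ¬ ((s = i ∨ s = j ∨ s = k) ∧ (t = i ∨ t = j ∨ t = k)) →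
      (proj i j k (of s) = 1 ∨ proj i j k (of t) = 1) := by
    intro s t h
    by_cases h1 : s = i ∨ s = j ∨ s = k
    · right
      have h2 : ¬ (t = i ∨ t = j ∨ t = k) := fun h' => h ⟨h1, h'⟩
      push Not at h2
      exact proj_o h2.1 h2.2.1 h2.2.2
    · left
      push Not at h1
      exact proj_o h1.1 h1.2.1 h1.2.2
  obtain ⟨q, hq⟩ := hom_of_rel {φ | ∃ s t : Fin n, s < t ∧ φ = artin s t} (Rel i j k)
    (fun g => by simp)
    (fun β γ e f h h' g => by
      rw [MulAut.mul_apply, h, h']
      group)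
    (fun β e h g => by
      have := h (β⁻¹ g)
      rw [MulAut.apply_inv_self] at this
      rw [this]
      group)
    (fun e h => Rel.unique hij hjk h)
    (by
      rintro φ ⟨s, t, hst, rfl⟩
      by_cases h : (s = i ∨ s = j ∨ s = k) ∧ (t = i ∨ t = j ∨ t = k)
      · obtain ⟨hs, ht⟩ := h
        rcases hs with rfl | rfl | rfl <;> rcases ht with rfl | rfl | rfl
        · exact absurd hst (lt_irrefl _)
        · exact ⟨_, rel_ij hij hjk⟩
        · exact ⟨_, rel_ik hij hjk⟩
        · exact absurd hst (lt_asymm hij)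
        · exact absurd hst (lt_irrefl _)
        · exact ⟨_, rel_jk hij hjk⟩
        · exact absurd hst (lt_asymm (hij.trans hjk))
        · exact absurd hst (lt_asymm hjk)
        · exact absurd hst (lt_irrefl _)
      · exact ⟨1, rel_triv hst (htriv s t h)⟩)
  refine ⟨q, hq _ _ (rel_ij hij hjk), hq _ _ (rel_jk hij hjk), hq _ _ (rel_ik hij hjk), ?_⟩
  intro s t h hst
  exact hq _ _ (rel_triv h (htriv s t hst))

end

/-- the position of a generator under the generators of the pure braid group -/
def wt (s t w : Fin n) : FreeGroup (Fin n) :=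
  if w = s then (of s * of t)⁻¹
  else if w = t then (of s * of t)⁻¹
  else if s < w ∧ w < t then (of t)⁻¹ * (of s)⁻¹ * of t * of s
  else 1

theorem artin_wt (s t w : Fin n) : artin s t (of w) = wt s t w * of w * (wt s t w)⁻¹ := by
  unfold wt
  split_ifs with h1 h2 h3
  · subst h1
    rw [a_fst]
    group
  · subst h2
    rw [a_snd]
    group
  · rw [a_mid _ _ _ h3.1 h3.2]
  · rw [a_out _ _ _ h1 h2 h3]
    group

/-- the relation for four strands -/
def Rel4 (i j k w : Fin n) (β : MulAut (FreeGroup (Fin n))) (q : FreeGroup (Fin 2)) : Prop :=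
  ∃ e, Rel i j k β e ∧ ∃ y, β (of w) = y * of w * y⁻¹ ∧ proj i j k y = e * q⁻¹

section
variable {i j k w : Fin n} (hij : i < j) (hjk : j < k) (hkw : k < w)
include hij hjk hkw

theorem proj_w : proj i j k (of w) = 1 :=
  proj_o ((hij.trans hjk).trans hkw).ne' (hjk.trans hkw).ne' hkw.ne'

/-- **the cross ratio maps** -/
theorem exists_cross : ∃ q : PureBraid n →* FreeGroup (Fin 2),
    q (A i j hij) = of 0 ∧ q (A k w hkw) = of 0 ∧
    q (A j k hjk) = of 1 ∧ q (A i w ((hij.trans hjk).trans hkw)) = of 1 ∧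
    q (A i k (hij.trans hjk)) = (of 1 * of 0)⁻¹ ∧
    q (A j w (hjk.trans hkw)) = (of 0 * of 1)⁻¹ ∧
    ∀ s t (h : s < t), ¬ ((s = i ∨ s = j ∨ s = k ∨ s = w) ∧ (t = i ∨ t = j ∨ t = k ∨ t = w)) →
      q (A s t h) = 1 := by
  have hw := proj_w hij hjk hkw
  have hiw : i < w := (hij.trans hjk).trans hkw
  have hjw : j < w := hjk.trans hkw
  have htriv : ∀ s t, ¬ ((s = i ∨ s = j ∨ s = k ∨ s = w) ∧ (t = i ∨ t = j ∨ t = k ∨ t = w)) →
      (proj i j k (of s) = 1 ∧ s ≠ w ∨ proj i j k (of t) = 1 ∧ t ≠ w) := by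
    intro s t h
    by_cases h1 : s = i ∨ s = j ∨ s = k ∨ s = w
    · right
      have h2 : ¬ (t = i ∨ t = j ∨ t = k ∨ t = w) := fun h' => h ⟨h1, h'⟩
      push Not at h2
      exact ⟨proj_o h2.1 h2.2.1 h2.2.2.1, h2.2.2.2⟩
    · left
      push Not at h1
      exact ⟨proj_o h1.1 h1.2.1 h1.2.2.1, h1.2.2.2⟩
  have r_ij : Rel4 i j k w (artin i j) (of 0) :=
    ⟨_, rel_ij hij hjk, wt i j w, artin_wt _ _ _, by
      rw [wt, if_neg hiw.ne', if_neg hjw.ne', if_neg (fun h => lt_asymm h.2 hjw), map_one]
      group⟩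
  have r_jk : Rel4 i j k w (artin j k) (of 1) :=
    ⟨_, rel_jk hij hjk, wt j k w, artin_wt _ _ _, by
      rw [wt, if_neg hjw.ne', if_neg hkw.ne', if_neg (fun h => lt_asymm h.2 hkw), map_one]
      group⟩
  have r_ik : Rel4 i j k w (artin i k) (of 1 * of 0)⁻¹ :=
    ⟨_, rel_ik hij hjk, wt i k w, artin_wt _ _ _, by
      rw [wt, if_neg hiw.ne', if_neg hkw.ne', if_neg (fun h => lt_asymm h.2 hkw), map_one]
      group⟩
  have r_kw : Rel4 i j k w (artin k w) (of 0) :=
    ⟨_, rel_triv hkw (Or.inr hw), wt k w w, artin_wt _ _ _, by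
      rw [wt, if_neg hkw.ne', if_pos rfl, map_inv, map_mul, hw, proj_k hij hjk]
      group⟩
  have r_iw : Rel4 i j k w (artin i w) (of 1) :=
    ⟨_, rel_triv hiw (Or.inr hw), wt i w w, artin_wt _ _ _, by
      rw [wt, if_neg hiw.ne', if_pos rfl, map_inv, map_mul, hw, proj_i hij hjk]
      group⟩
  have r_jw : Rel4 i j k w (artin j w) (of 0 * of 1)⁻¹ :=
    ⟨_, rel_triv hjw (Or.inr hw), wt j w w, artin_wt _ _ _, by
      rw [wt, if_neg hjw.ne', if_pos rfl, map_inv, map_mul, hw, proj_j hij hjk]
      group⟩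
  have r_o : ∀ s t, s < t → ¬ ((s = i ∨ s = j ∨ s = k ∨ s = w) ∧
      (t = i ∨ t = j ∨ t = k ∨ t = w)) → Rel4 i j k w (artin s t) 1 := by
    intro s t hst h
    rcases htriv s t h with ⟨h1, h2⟩ | ⟨h1, h2⟩
    · refine ⟨_, rel_triv hst (Or.inl h1), wt s t w, artin_wt _ _ _, ?_⟩
      unfold wt
      split_ifs with h3 h4 h5
      · exact absurd h3.symm h2
      · subst h4
        simp [h1, hw]
      · simp [h1]
      · simp
    · refine ⟨_, rel_triv hst (Or.inr h1), wt s t w, artin_wt _ _ _, ?_⟩
      unfold wt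
      split_ifs with h3 h4 h5
      · subst h3
        simp [h1, hw]
      · exact absurd h4.symm h2
      · simp [h1]
      · simp
  obtain ⟨q, hq⟩ := hom_of_rel {φ | ∃ s t : Fin n, s < t ∧ φ = artin s t} (Rel4 i j k w)
    ⟨1, fun g => by simp, 1, by simp, by simp⟩
    (by
      rintro β γ q q' ⟨e, h, y, hy, hy'⟩ ⟨e', h', z, hz, hz'⟩
      refine ⟨e * e', fun g => ?_, β z * y, ?_, ?_⟩
      · rw [MulAut.mul_apply, h, h']
        group
      · rw [MulAut.mul_apply, hz, map_mul, map_mul, map_inv, hy]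
        group
      · rw [map_mul, h z, hy', hz']
        group)
    (by
      rintro β q ⟨e, h, y, hy, hy'⟩
      have hinv : ∀ g, proj i j k (β⁻¹ g) = e⁻¹ * proj i j k g * e⁻¹⁻¹ := by
        intro g
        have := h (β⁻¹ g)
        rw [MulAut.apply_inv_self] at this
        rw [this]
        group
      refine ⟨e⁻¹, hinv, (β⁻¹ y)⁻¹, ?_, ?_⟩
      · have h1 : of w = β⁻¹ y * β⁻¹ (of w) * (β⁻¹ y)⁻¹ := by
          have := congrArg (fun x => β⁻¹ x) hy
          simp only [map_mul, map_inv, MulAut.inv_apply_self] at this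
          exact this
        nth_rewrite 2 [h1]
        group
      · rw [map_inv, hinv, hy']
        group)
    (by
      rintro q ⟨e, h, y, hy, hy'⟩
      have he := Rel.unique hij hjk h
      have h1 : proj i j k y = 1 := by
        apply comm_ker _ hw
        have : of w = y * of w * y⁻¹ := hy
        nth_rewrite 2 [this]
        group
      rw [h1, he, one_mul] at hy'
      exact (inv_eq_one.1 hy'.symm))
    (by
      rintro φ ⟨s, t, hst, rfl⟩
      by_cases h : (s = i ∨ s = j ∨ s = k ∨ s = w) ∧ (t = i ∨ t = j ∨ t = k ∨ t = w)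
      · obtain ⟨hs, ht⟩ := h
        rcases hs with rfl | rfl | rfl | rfl <;> rcases ht with rfl | rfl | rfl | rfl
        · exact absurd hst (lt_irrefl _)
        · exact ⟨_, r_ij⟩
        · exact ⟨_, r_ik⟩
        · exact ⟨_, r_iw⟩
        · exact absurd hst (lt_asymm hij)
        · exact absurd hst (lt_irrefl _)
        · exact ⟨_, r_jk⟩
        · exact ⟨_, r_jw⟩
        · exact absurd hst (lt_asymm (hij.trans hjk))
        · exact absurd hst (lt_asymm hjk)
        · exact absurd hst (lt_irrefl _)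
        · exact ⟨_, r_kw⟩
        · exact absurd hst (lt_asymm hiw)
        · exact absurd hst (lt_asymm hjw)
        · exact absurd hst (lt_asymm hkw)
        · exact absurd hst (lt_irrefl _)
      · exact ⟨1, r_o s t hst h⟩)
  refine ⟨q, hq _ _ r_ij, hq _ _ r_kw, hq _ _ r_jk, hq _ _ r_iw, hq _ _ r_ik, hq _ _ r_jw, ?_⟩
  intro s t h hst
  exact hq _ _ (r_o s t h hst)

end

end Pool.Agent.PB3
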