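import Pool.Agent.PB3.Quot

/-!
# Forgetting strands

The forgetful homomorphism from the pure braid group on `n` strands to the pure braid group on
the strands in the image of an order embedding, and its section.
-/

set_option autoImplicit false

namespace Pool.Agent.PB3

open Pool.Agent.Conf14
open FreeGroup (of lift lift_apply_of)

variable {m n : ℕ}

/-- the projection of the free groups -/
noncomputable def prj (e : Fin m ↪o Fin n) : FreeGroup (Fin n) →* FreeGroup (Fin m) := by
  classical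
  exact lift fun l => if h : ∃ i, e i = l then of h.choose else 1

theorem prj_e (e : Fin m ↪o Fin n) (i : Fin m) : prj e (of (e i)) = of i := by
  classical
  have h : ∃ j, e j = e i := ⟨i, rfl⟩
  have h2 : h.choose = i := e.injective h.choose_spec
  unfold prj
  rw [lift_apply_of, dif_pos h, h2]

theorem prj_o (e : Fin m ↪o Fin n) {l : Fin n} (h : ∀ i, e i ≠ l) : prj e (of l) = 1 := by
  classical
  unfold prj
  rw [lift_apply_of, dif_neg (fun h' => h _ h'.choose_spec)]

/-- the inclusion of the free groups -/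
def inc (e : Fin m ↪o Fin n) : FreeGroup (Fin m) →* FreeGroup (Fin n) :=
  lift fun i => of (e i)

theorem inc_of (e : Fin m ↪o Fin n) (i : Fin m) : inc e (of i) = of (e i) := by
  rw [inc, lift_apply_of]

theorem prj_inc (e : Fin m ↪o Fin n) (g : FreeGroup (Fin m)) : prj e (inc e g) = g := by
  have : (prj e).comp (inc e) = MonoidHom.id _ := by
    apply FreeGroup.ext_hom
    intro i
    rw [MonoidHom.comp_apply, inc_of, prj_e, MonoidHom.id_apply]
  exact DFunLike.congr_fun this g

theorem inc_artin (e : Fin m ↪o Fin n) {i j : Fin m} (hij : i < j) (g : FreeGroup (Fin m)) :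
    artin (e i) (e j) (inc e g) = inc e (artin i j g) := by
  have : (artin (e i) (e j)).toMonoidHom.comp (inc e) =
      (inc e).comp (artin i j).toMonoidHom := by
    apply FreeGroup.ext_hom
    intro k
    show artin (e i) (e j) (inc e (of k)) = inc e (artin i j (of k))
    rw [inc_of]
    by_cases h1 : k = i
    · subst h1
      rw [a_fst, a_fst]
      simp only [map_mul, map_inv, inc_of]
    by_cases h2 : k = j
    · subst h2
      rw [a_snd, a_snd]
      simp only [map_mul, map_inv, inc_of]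
    by_cases h3 : i < k ∧ k < j
    · rw [a_mid _ _ _ h3.1 h3.2, a_mid _ _ _ (e.strictMono h3.1) (e.strictMono h3.2)]
      simp only [map_mul, map_inv, inc_of]
    · rw [a_out _ _ _ h1 h2 h3, a_out _ _ _ (fun h => h1 (e.injective h))
        (fun h => h2 (e.injective h)) (fun h => h3 ⟨e.lt_iff_lt.1 h.1, e.lt_iff_lt.1 h.2⟩), inc_of]
  exact DFunLike.congr_fun this g

theorem prj_artin (e : Fin m ↪o Fin n) {i j : Fin m} (hij : i < j) (g : FreeGroup (Fin n)) :
    prj e (artin (e i) (e j) g) = artin i j (prj e g) := by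
  have : (prj e).comp (artin (e i) (e j)).toMonoidHom =
      (artin i j).toMonoidHom.comp (prj e) := by
    apply FreeGroup.ext_hom
    intro l
    show prj e (artin (e i) (e j) (of l)) = artin i j (prj e (of l))
    by_cases h0 : ∃ k, e k = l
    · obtain ⟨k, rfl⟩ := h0
      rw [← inc_of, inc_artin e hij, prj_inc, prj_inc]
    · push Not at h0
      rw [prj_o e h0, map_one]
      have h1 : l ≠ e i := fun h => h0 i h.symm
      have h2 : l ≠ e j := fun h => h0 j h.symm
      by_cases h3 : e i < l ∧ l < e j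
      · rw [a_mid _ _ _ h3.1 h3.2]
        simp [prj_o e h0]
      · rw [a_out _ _ _ h1 h2 h3, prj_o e h0]
  exact DFunLike.congr_fun this g

theorem prj_triv (e : Fin m ↪o Fin n) {s t : Fin n}
    (h : ¬ (s ∈ Set.range e ∧ t ∈ Set.range e)) (g : FreeGroup (Fin n)) :
    prj e (artin s t g) = prj e g := by
  have h' : prj e (of s) = 1 ∨ prj e (of t) = 1 := by
    by_cases hs : s ∈ Set.range e
    · right
      apply prj_o
      intro i hi
      exact h ⟨hs, i, hi⟩
    · left
      apply prj_o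
      intro i hi
      exact hs ⟨i, hi⟩
  have : (prj e).comp (artin s t).toMonoidHom = prj e := by
    apply FreeGroup.ext_hom
    intro l
    show prj e (artin s t (of l)) = prj e (of l)
    by_cases h1 : l = s
    · subst h1
      rw [a_fst]
      rcases h' with h | h <;> simp [h]
    by_cases h2 : l = t
    · subst h2
      rw [a_snd]
      rcases h' with h | h <;> simp [h]
    by_cases h3 : s < l ∧ l < t
    · rw [a_mid _ _ _ h3.1 h3.2]
      rcases h' with h | h <;> simp [h]
    · rw [a_out _ _ _ h1 h2 h3]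
  exact DFunLike.congr_fun this g

/-- **the forgetful homomorphism** -/
theorem exists_forgetful (e : Fin m ↪o Fin n) :
    ∃ F : PureBraid n →* PureBraid m, IsForgetful e F := by
  have hgen : ∀ s t : Fin n, s < t → (∃ i j, i < j ∧ e i = s ∧ e j = t) ∨
      ¬ (s ∈ Set.range e ∧ t ∈ Set.range e) := by
    intro s t hst
    by_cases h : s ∈ Set.range e ∧ t ∈ Set.range e
    · left
      obtain ⟨⟨i, rfl⟩, ⟨j, rfl⟩⟩ := h
      exact ⟨i, j, e.lt_iff_lt.1 hst, rfl, rfl⟩
    · exact Or.inr h
  have hr1 : ∀ (i j : Fin m) (h : i < j) (g : FreeGroup (Fin n)),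
      prj e (artin (e i) (e j) g) = (A i j h).1 (prj e g) := fun i j h g => prj_artin e h g
  have hr2 : ∀ s t : Fin n, ¬ (s ∈ Set.range e ∧ t ∈ Set.range e) → ∀ g : FreeGroup (Fin n),
      prj e (artin s t g) = (1 : PureBraid m).1 (prj e g) := fun s t h g => prj_triv e h g
  obtain ⟨F, hF⟩ := hom_of_rel (H := PureBraid m) {φ | ∃ s t : Fin n, s < t ∧ φ = artin s t}
    (fun β γ => ∀ g, prj e (β g) = γ.1 (prj e g)) (fun g => rfl)
    (fun β β' γ γ' h h' g => by
      show prj e (β (β' g)) = γ.1 (γ'.1 (prj e g))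
      rw [h, h'])
    (fun β γ h g => by
      have h1 := h (β⁻¹ g)
      rw [MulAut.apply_inv_self] at h1
      show _ = (γ.1)⁻¹ (prj e g)
      rw [h1, MulAut.inv_apply_self])
    (fun γ h => by
      apply Subtype.ext
      apply MulEquiv.ext
      intro x
      have h1 := h (inc e x)
      rw [prj_inc] at h1
      have h2 : prj e ((1 : MulAut (FreeGroup (Fin n))) (inc e x)) = x := prj_inc e x
      rw [h2] at h1
      exact h1.symm)
    (by
      rintro φ ⟨s, t, hst, rfl⟩
      rcases hgen s t hst with ⟨i, j, hij, rfl, rfl⟩ | h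
      · exact ⟨A i j hij, hr1 i j hij⟩
      · exact ⟨1, hr2 s t h⟩)
  exact ⟨F, fun i j h => hF _ _ (hr1 i j h), fun s t h hst => hF _ _ (hr2 s t hst)⟩

/-- the number of strands in the image before `l` -/
theorem exists_before (e : Fin m ↪o Fin n) (l : Fin n) :
    ∃ a : ℕ, a ≤ m ∧ ∀ k : Fin m, e k < l ↔ (k : ℕ) < a := by
  by_cases h : ∃ k : ℕ, ∃ hk : k < m, ¬ e ⟨k, hk⟩ < l
  · classical
    obtain ⟨hk, hk'⟩ := Nat.find_spec h
    refine ⟨Nat.find h, hk.le, fun k => ⟨fun h1 => ?_, fun h1 => ?_⟩⟩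
    · by_contra h2
      apply hk'
      refine lt_of_le_of_lt (e.monotone ?_) h1
      exact Fin.le_def.2 (not_lt.1 h2)
    · by_contra h2
      exact absurd (Nat.find_min' h ⟨k.2, h2⟩) (not_le.2 h1)
  · push Not at h
    exact ⟨m, le_rfl, fun k => ⟨fun _ => k.2, fun _ => h k k.2⟩⟩

/-- **the section of the forgetful homomorphism** -/
theorem exists_section (e : Fin m ↪o Fin n) :
    ∃ S : PureBraid m →* PureBraid n,
      ∀ i j (h : i < j), S (A i j h) = A (e i) (e j) (e.strictMono h) := by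
  choose a ha ha' using exists_before e
  -- the crossed homomorphism
  let y : Fin n → FreeGroup (Fin m) := fun l => xprod m (a l)
  have hr : ∀ (i j : Fin m) (h : i < j),
      (∀ g, (A (e i) (e j) (e.strictMono h)).1 (inc e g) = inc e (artin i j g)) ∧
      ∀ l, (∀ k, e k ≠ l) → (A (e i) (e j) (e.strictMono h)).1 (of l) =
        inc e ((artin i j (y l))⁻¹ * y l) * of l * (inc e ((artin i j (y l))⁻¹ * y l))⁻¹ := by
    intro i j hij
    refine ⟨inc_artin e hij, fun l hl => ?_⟩
    have hy : artin i j (y l) = if (i : ℕ) < a l ∧ a l ≤ (j : ℕ) then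
      y l * ((of j)⁻¹ * (of i)⁻¹ * of j * of i)⁻¹ else y l := artin_xprod hij (a l) (ha l)
    show artin (e i) (e j) (of l) = _
    by_cases h3 : e i < l ∧ l < e j
    · have h4 : (i : ℕ) < a l ∧ a l ≤ (j : ℕ) :=
        ⟨(ha' l i).1 h3.1, not_lt.1 fun h => lt_asymm h3.2 ((ha' l j).2 h)⟩
      rw [hy, if_pos h4, a_mid _ _ _ h3.1 h3.2]
      have e1 : (y l * ((of j)⁻¹ * (of i)⁻¹ * of j * of i)⁻¹)⁻¹ * y l =
          (of j)⁻¹ * (of i)⁻¹ * of j * of i := by group
      rw [e1]
      simp only [map_mul, map_inv, inc_of]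
    · have h4 : ¬ ((i : ℕ) < a l ∧ a l ≤ (j : ℕ)) := by
        rintro ⟨h5, h6⟩
        apply h3
        refine ⟨(ha' l i).2 h5, ?_⟩
        have : ¬ e j < l := fun h => absurd ((ha' l j).1 h) (not_lt.2 h6)
        exact lt_of_le_of_ne (not_lt.1 this) (hl j).symm
      rw [hy, if_neg h4, inv_mul_cancel, map_one, one_mul, inv_one, mul_one]
      exact a_out _ _ _ (hl i).symm (hl j).symm h3
  obtain ⟨S, hS⟩ := hom_of_rel (H := PureBraid n) {φ | ∃ i j : Fin m, i < j ∧ φ = artin i j}
    (fun γ β => (∀ g, β.1 (inc e g) = inc e (γ g)) ∧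
      ∀ l, (∀ k, e k ≠ l) → β.1 (of l) =
        inc e ((γ (y l))⁻¹ * y l) * of l * (inc e ((γ (y l))⁻¹ * y l))⁻¹)
    ⟨fun g => rfl, fun l _ => by
      show of l = inc e ((y l)⁻¹ * y l) * of l * (inc e ((y l)⁻¹ * y l))⁻¹
      rw [inv_mul_cancel, map_one]
      group⟩
    (by
      rintro γ γ' β β' ⟨h1, h2⟩ ⟨h3, h4⟩
      refine ⟨fun g => ?_, fun l hl => ?_⟩
      · show β.1 (β'.1 (inc e g)) = inc e (γ (γ' g))
        rw [h3, h1]
      · show β.1 (β'.1 (of l)) = inc e ((γ (γ' (y l)))⁻¹ * y l) * of l *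
          (inc e ((γ (γ' (y l)))⁻¹ * y l))⁻¹
        rw [h4 l hl, map_mul β.1, map_mul β.1, map_inv β.1, h1, h2 l hl]
        simp only [map_mul, map_inv]
        group)
    (by
      rintro γ β ⟨h1, h2⟩
      have h3 : ∀ g, (β⁻¹ : PureBraid n).1 (inc e g) = inc e (γ⁻¹ g) := by
        intro g
        have h4 := h1 (γ⁻¹ g)
        rw [MulAut.apply_inv_self] at h4
        rw [← h4]
        exact MulAut.inv_apply_self _ β.1 _
      refine ⟨h3, fun l hl => ?_⟩
      have h5 := congrArg (fun x => (β⁻¹ : PureBraid n).1 x) (h2 l hl)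
      have h6 : (β⁻¹ : PureBraid n).1 (β.1 (of l)) = of l := MulAut.inv_apply_self _ β.1 _
      simp only [h6, map_mul (β⁻¹ : PureBraid n).1, map_inv (β⁻¹ : PureBraid n).1, h3] at h5
      have h7 : γ⁻¹ ((γ (y l))⁻¹ * y l) = (y l)⁻¹ * γ⁻¹ (y l) := by
        rw [map_mul, map_inv, MulAut.inv_apply_self]
      rw [h7] at h5
      have h8 : (β⁻¹ : PureBraid n).1 (of l) = (inc e ((y l)⁻¹ * γ⁻¹ (y l)))⁻¹ *
          (inc e ((y l)⁻¹ * γ⁻¹ (y l)) * (β⁻¹ : PureBraid n).1 (of l) *
          (inc e ((y l)⁻¹ * γ⁻¹ (y l)))⁻¹) * inc e ((y l)⁻¹ * γ⁻¹ (y l)) := by group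
      rw [h8, ← h5]
      simp only [map_mul, map_inv]
      group)
    (by
      rintro β ⟨h1, h2⟩
      apply Subtype.ext
      apply mulAut_ext
      intro l
      show β.1 (of l) = of l
      by_cases h0 : ∃ k, e k = l
      · obtain ⟨k, rfl⟩ := h0
        rw [← inc_of]
        exact h1 (of k)
      · push Not at h0
        have h3 := h2 l h0
        have h4 : ((1 : MulAut (FreeGroup (Fin m))) (y l))⁻¹ * y l = 1 := inv_mul_cancel _
        rw [h4, map_one, one_mul, inv_one, mul_one] at h3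
        exact h3)
    (by
      rintro φ ⟨i, j, hij, rfl⟩
      exact ⟨A (e i) (e j) (e.strictMono hij), hr i j hij⟩)
  exact ⟨S, fun i j h => hS _ _ (hr i j h)⟩

end Pool.Agent.PB3
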