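import Pool.Agent.PB3.Fact

/-!
# Representations of rank three and of prime rank
-/

set_option autoImplicit false

namespace Pool.Agent.PB3

open Pool.Agent.Conf14

variable {n : ℕ} {V : Type*} [AddCommGroup V] [Module ℂ V]

/-- reflection type -/
theorem inCyclicCovers [FiniteDimensional ℂ V] (ρ : Representation ℂ (PureBraid n) V)
    [ρ.IsIrreducible] (h2 : 2 ≤ Module.finrank ℂ V)
    (hr : ∀ (i j : Fin n) (h : i < j), ∃ c : ℂ,
      Module.finrank ℂ (LinearMap.range (ρ (A i j h) - c • LinearMap.id)) ≤ 1) :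
    InCyclicCovers ρ := by
  obtain ⟨t, χ, ι, h1, h3, h4⟩ := main_two ρ h2 hr
  refine ⟨t, χ, (H1 t).subtype ∘ₗ ι, ?_, fun x => (ι x).2, fun β x u => ?_, h4⟩
  · intro x y hxy
    exact h1 (Subtype.ext hxy)
  · refine ⟨(good_of_mem β.2).mem_ker u.2, ?_⟩
    have h5 := congrArg (fun f : H1 t => (f : ker t → ℂ)
      ⟨β.1 u.1, (good_of_mem β.2).mem_ker u.2⟩) (h3 β x)
    have h6 : (cohRep t β (ι x) : ker t → ℂ) ⟨β.1 u.1, (good_of_mem β.2).mem_ker u.2⟩ =
        (ι x : ker t → ℂ) u := by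
      show (ι x : ker t → ℂ) ⟨((β⁻¹ : PureBraid n) : MulAut (FreeGroup (Fin n))) (β.1 u.1), _⟩ = _
      exact congrArg (ι x : ker t → ℂ) (Subtype.ext (MulAut.inv_apply_self _ β.1 u.1))
    show (ι (ρ β x) : ker t → ℂ) _ = _
    rw [show (ι (ρ β x) : ker t → ℂ) ⟨β.1 u.1, (good_of_mem β.2).mem_ker u.2⟩ =
      (χ β : ℂ) * (cohRep t β (ι x) : ker t → ℂ) ⟨β.1 u.1, (good_of_mem β.2).mem_ker u.2⟩ from h5,
      h6]
    rfl

/-- a scalar generator -/
theorem scalar_of_cen [FiniteDimensional ℂ V] [Nontrivial V]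
    (ρ : Representation ℂ (PureBraid n) V) [ρ.IsIrreducible] {i j : Fin n} (hij : i < j)
    (h : Cen (fam ρ i j)) : ∃ c : ℂ, ρ (A i j hij) = c • LinearMap.id := by
  obtain ⟨z, hz⟩ := h.scalar ρ
  refine ⟨z, ?_⟩
  ext x
  rw [← fam_lt ρ hij, hz]
  rfl

/-- rank three -/
theorem rank_three (ρ : Representation ℂ (PureBraid n) V) [ρ.IsIrreducible]
    (h3 : Module.finrank ℂ V = 3) : InCyclicCovers ρ ∨ FromLine ρ := by
  have : FiniteDimensional ℂ V := FiniteDimensional.of_finrank_pos (by omega)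
  have : Nontrivial V := Module.nontrivial_of_finrank_pos (R := ℂ) (by omega)
  by_cases hall : ∀ (i j : Fin n) (h : i < j), Lau (ρ (A i j h))
  · left
    exact inCyclicCovers ρ (by omega) hall
  · right
    push Not at hall
    obtain ⟨i, j, hij, hL⟩ := hall
    have hreg := (lau_or_reg h3 (ρ (A i j hij))).resolve_left hL
    refine exists_line ρ (schurP_of_prime (fam_pb ρ) (fam_irr ρ) (by rw [h3]; norm_num)) hij
      hreg ?_
    intro hc
    obtain ⟨c, hc⟩ := scalar_of_cen ρ hij hc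
    exact hL (IsSc.lau ⟨c, hc⟩)

/-- the generators on each strand act irreducibly or as scalars -/
theorem schurP_of_strand [FiniteDimensional ℂ V] [Nontrivial V]
    (ρ : Representation ℂ (PureBraid n) V) [ρ.IsIrreducible]
    (h : ∀ s : Fin n,
      (∀ i j (hij : i < j), i = s ∨ j = s → ∃ c : ℂ, ρ (A i j hij) = c • LinearMap.id) ∨
      ∀ W : Submodule ℂ V, (∀ i j (hij : i < j), i = s ∨ j = s → ∀ x ∈ W, ρ (A i j hij) x ∈ W) →
        W = ⊥ ∨ W = ⊤) :
    SchurP (fam ρ) := by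
  intro s hs T hT
  rcases h s with h1 | h1
  · exfalso
    obtain ⟨j, hj, hj'⟩ := hs
    apply hj'
    rcases lt_or_gt_of_ne hj with h2 | h2
    · obtain ⟨c, hc⟩ := h1 j s h2 (Or.inr rfl)
      apply cen_of_scalar (c := c)
      intro x
      rw [(fam_pb ρ).symm, fam_lt ρ h2, hc]
      rfl
    · obtain ⟨c, hc⟩ := h1 s j h2 (Or.inl rfl)
      apply cen_of_scalar (c := c)
      intro x
      rw [fam_lt ρ h2, hc]
      rfl
  · obtain ⟨c, hc⟩ := schur (S := {f | ∃ j, j ≠ s ∧ f = fam ρ s j}) (by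
      intro U hU
      apply h1 U
      intro i j hij hs x hx
      rcases hs with rfl | rfl
      · rw [← fam_lt ρ hij]
        exact hU _ ⟨j, hij.ne', rfl⟩ x hx
      · rw [← fam_lt ρ hij, (fam_pb ρ).symm]
        exact hU _ ⟨i, hij.ne, rfl⟩ x hx) T (by
      rintro f ⟨j, hj, rfl⟩
      exact hT j hj)
    exact cen_of_scalar hc

/-- prime rank -/
theorem prime_rank [FiniteDimensional ℂ V] (ρ : Representation ℂ (PureBraid n) V)
    [ρ.IsIrreducible] (h2 : 2 ≤ Module.finrank ℂ V)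
    (h : (Module.finrank ℂ V).Prime ∨ ∀ s : Fin n,
      (∀ i j (hij : i < j), i = s ∨ j = s → ∃ c : ℂ, ρ (A i j hij) = c • LinearMap.id) ∨
      ∀ W : Submodule ℂ V, (∀ i j (hij : i < j), i = s ∨ j = s → ∀ x ∈ W, ρ (A i j hij) x ∈ W) →
        W = ⊥ ∨ W = ⊤) :
    FromLine ρ ∨ ∀ (i j : Fin n) (h : i < j),
      (minpoly ℂ (ρ (A i j h))).natDegree < Module.finrank ℂ V := by
  have : Nontrivial V := Module.nontrivial_of_finrank_pos (R := ℂ) (by omega)
  by_cases hall : ∀ (i j : Fin n) (h : i < j),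
      (minpoly ℂ (ρ (A i j h))).natDegree < Module.finrank ℂ V
  · exact Or.inr hall
  · left
    push Not at hall
    obtain ⟨i, j, hij, hL⟩ := hall
    have hS : SchurP (fam ρ) := by
      rcases h with h | h
      · exact schurP_of_prime (fam_pb ρ) (fam_irr ρ) h
      · exact schurP_of_strand ρ h
    refine exists_line ρ hS hij (Cyc_reg _ hL) ?_
    intro hc
    obtain ⟨c, hc⟩ := scalar_of_cen ρ hij hc
    have h4 : Polynomial.aeval (ρ (A i j hij)) (Polynomial.X - Polynomial.C c) = 0 := by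
      rw [map_sub, Polynomial.aeval_X, Polynomial.aeval_C, Algebra.algebraMap_eq_smul_one, hc]
      exact sub_self _
    have h5 := Polynomial.natDegree_le_of_dvd (minpoly.dvd ℂ _ h4) (Polynomial.X_sub_C_ne_zero c)
    rw [Polynomial.natDegree_X_sub_C] at h5
    omega

end Pool.Agent.PB3
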