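import Pool.Agent.PB3.Stab
import Pool.Agent.PB3.Forget
import Pool.Agent.PB3.Stmt

/-!
# Representations come from few strands
-/

set_option autoImplicit false

namespace Pool.Agent.PB3

open Pool.Agent.Conf14

variable {n : ℕ} {V : Type*} [AddCommGroup V] [Module ℂ V]

/-- an irreducible representation of rank `r` comes from at most `4 * (r - 1)` strands -/
theorem few_strands [FiniteDimensional ℂ V] (ρ : Representation ℂ (PureBraid n) V)
    [ρ.IsIrreducible] :
    ∃ (m : ℕ) (e : Fin m ↪o Fin n) (F : PureBraid n →* PureBraid m)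
      (σ : Representation ℂ (PureBraid m) V) (χ : PureBraid n →* ℂˣ),
      m ≤ 4 * (Module.finrank ℂ V - 1) ∧ IsForgetful e F ∧
      (∀ g, ρ g = (χ g : ℂ) • σ (F g)) ∧
      (RootEig ρ → ∃ N : ℕ, 0 < N ∧ ∀ g, χ g ^ N = 1) := by
  classical
  have hnt : Nontrivial V := by
    by_contra hcon
    rw [not_nontrivial_iff_subsingleton] at hcon
    have h1 : (⊥ : Subrepresentation ρ) = ⊤ := by
      apply Subrepresentation.toSubmodule_injective
      exact Subsingleton.elim _ _
    exact bot_ne_top h1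
  set T : Finset (Fin n) := Finset.univ.filter (fun s => Act (fam ρ) s) with hT
  have hact : ∀ s, s ∈ T ↔ Act (fam ρ) s := fun s => by rw [hT]; simp
  have hcard := card_act (fam_pb ρ) (fam_irr ρ) T (fun s hs => (hact s).1 hs)
  let e : Fin T.card ↪o Fin n := T.orderEmbOfFin rfl
  have hrange : ∀ s, s ∈ Set.range e ↔ Act (fam ρ) s := by
    intro s
    rw [← hact]
    have : Set.range e = (T : Set (Fin n)) := Finset.range_orderEmbOfFin T rfl
    rw [this, Finset.mem_coe]
  obtain ⟨F, hF⟩ := exists_forgetful e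
  obtain ⟨S, hS⟩ := exists_section e
  have hgen : ∀ s t : Fin n, s < t → (∃ i j, i < j ∧ e i = s ∧ e j = t) ∨
      ¬ (s ∈ Set.range e ∧ t ∈ Set.range e) := by
    intro s t hst
    by_cases h : s ∈ Set.range e ∧ t ∈ Set.range e
    · left
      obtain ⟨⟨i, rfl⟩, ⟨j, rfl⟩⟩ := h
      exact ⟨i, j, e.lt_iff_lt.1 hst, rfl, rfl⟩
    · exact Or.inr h
  have hcen : ∀ g, Cen (toEq ρ g * ((((toEq ρ).comp S).comp F) g)⁻¹) := by
    apply factor_cen
    intro s t hst
    rw [MonoidHom.comp_apply, MonoidHom.comp_apply]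
    rcases hgen s t hst with ⟨i, j, hij, rfl, rfl⟩ | h
    · rw [hF.1 i j hij, hS i j hij, mul_inv_cancel]
      exact Cen.one
    · rw [hF.2 s t hst h, map_one, map_one, inv_one, mul_one, ← B_lt hst]
      have h1 : ¬ (Act (fam ρ) s ∧ Act (fam ρ) t) := fun h' =>
        h ⟨(hrange s).2 h'.1, (hrange t).2 h'.2⟩
      exact cen_of_not_act (fam_pb ρ) hst.ne h1
  obtain ⟨χ, hχ⟩ := exists_chi ρ (((toEq ρ).comp S).comp F) hcen
  have hρ : ∀ g, ρ g = (χ g : ℂ) • (MonoidHom.comp ρ S) (F g) := by
    intro g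
    ext x
    exact hχ g x
  refine ⟨T.card, e, F, MonoidHom.comp ρ S, χ, hcard, hF, hρ, fun hroot => ?_⟩
  obtain ⟨u, hu⟩ := exists_ne (0 : V)
  have hfin : ∀ s t (hst : s < t), IsOfFinOrder (χ (A s t hst)) := by
    intro s t hst
    rcases hgen s t hst with ⟨i, j, hij, rfl, rfl⟩ | h
    · have h1 := hχ (A (e i) (e j) hst) u
      have h2 : (((toEq ρ).comp S).comp F) (A (e i) (e j) hst) u =
          ρ (A (e i) (e j) hst) u := by
        rw [MonoidHom.comp_apply, MonoidHom.comp_apply, hF.1 i j hij, hS i j hij]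
        rfl
      rw [h2] at h1
      have h3 : ρ (A (e i) (e j) hst) u ≠ 0 := by
        intro h0
        apply hu
        apply (toEq ρ (A (e i) (e j) hst)).injective
        rw [map_zero]
        exact h0
      have h4 : χ (A (e i) (e j) hst) = 1 := by
        apply Units.ext
        apply smul_left_injective ℂ h3
        show (χ (A (e i) (e j) hst) : ℂ) • ρ (A (e i) (e j) hst) u = ((1 : ℂˣ) : ℂ) •
          ρ (A (e i) (e j) hst) u
        rw [← h1, Units.val_one, one_smul]
      rw [h4]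
      exact IsOfFinOrder.one
    · have h1 := hχ (A s t hst) u
      have h2 : (((toEq ρ).comp S).comp F) (A s t hst) u = u := by
        rw [MonoidHom.comp_apply, hF.2 s t hst h, map_one]
        rfl
      rw [h2] at h1
      obtain ⟨k, hk, h3⟩ := hroot s t hst _ (Module.End.hasEigenvalue_of_hasEigenvector
        ⟨Module.End.mem_eigenspace_iff.mpr h1, hu⟩)
      rw [isOfFinOrder_iff_pow_eq_one]
      exact ⟨k, hk, Units.ext (by rw [Units.val_pow_eq_pow_val, h3, Units.val_one])⟩
  obtain ⟨N, hN, -, h5⟩ := common_exp (t := fun _ : Fin n => (1 : ℂˣ))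
    (fun _ => IsOfFinOrder.one) hfin
  exact ⟨N, hN, h5⟩

end Pool.Agent.PB3
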