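import Mathlib

/-!
# Four strands

Pure group theory: six elements with the relations of the pure braid group on four strands, such
that every element commuting with the three generators on one strand is central.  If one of the six
elements is regular (two elements commuting with it commute) then the four full twists of three
strands are central.
-/

set_option autoImplicit false

namespace Pool.Agent.PB3

variable {Γ : Type*} [Group Γ]

/-- central elements -/
def Cen (x : Γ) : Prop := ∀ y : Γ, Commute x y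

/-- two elements which commute with `t` commute -/
def RegG (t : Γ) : Prop := ∀ X Y : Γ, Commute t X → Commute t Y → Commute X Y

theorem Cen.mul {x y : Γ} (hx : Cen x) (hy : Cen y) : Cen (x * y) :=
  fun z => (hx z).mul_left (hy z)

theorem Cen.inv {x : Γ} (hx : Cen x) : Cen x⁻¹ := fun z => (hx z).inv_left

theorem Cen.one : Cen (1 : Γ) := fun z => Commute.one_left z

theorem Cen.conj {x : Γ} (hx : Cen x) (g : Γ) : Cen (g * x * g⁻¹) := by
  have : g * x * g⁻¹ = x := by rw [← (hx g).eq]; group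
  rw [this]
  exact hx

theorem Cen.of_conj {x : Γ} (g : Γ) (hx : Cen (g * x * g⁻¹)) : Cen x := by
  have := hx.conj g⁻¹
  have e : g⁻¹ * (g * x * g⁻¹) * g⁻¹⁻¹ = x := by group
  rwa [e] at this

theorem RegG.cen_mul {t c : Γ} (h : RegG t) (hc : Cen c) : RegG (c * t) := by
  intro X Y hX hY
  have key : ∀ X, Commute (c * t) X → Commute t X := by
    intro X hX
    have := ((hc.inv X).mul_left hX)
    rwa [inv_mul_cancel_left] at this
  exact h X Y (key X hX) (key Y hY)

theorem RegG.conj {t : Γ} (h : RegG t) (g : Γ) : RegG (g * t * g⁻¹) := by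
  have key : ∀ X, Commute (g * t * g⁻¹) X → Commute t (g⁻¹ * X * g) := by
    intro X hX
    rw [commute_iff_eq] at *
    calc t * (g⁻¹ * X * g) = g⁻¹ * ((g * t * g⁻¹) * X) * g := by group
      _ = g⁻¹ * (X * (g * t * g⁻¹)) * g := by rw [hX]
      _ = _ := by group
  intro X Y hX hY
  have h1 := h _ _ (key X hX) (key Y hY)
  rw [commute_iff_eq] at *
  calc X * Y = g * ((g⁻¹ * X * g) * (g⁻¹ * Y * g)) * g⁻¹ := by group
    _ = g * ((g⁻¹ * Y * g) * (g⁻¹ * X * g)) * g⁻¹ := by rw [h1]
    _ = _ := by group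

theorem comm_left_of_mul {c x y : Γ} (h : Commute c (x * y)) (h2 : Commute c y) : Commute c x := by
  have := h.mul_right h2.inv_right
  rwa [mul_inv_cancel_right] at this

theorem comm_right_of_mul {c x y : Γ} (h : Commute c (x * y)) (h2 : Commute c x) :
    Commute c y := by
  have := h2.inv_right.mul_right h
  rwa [inv_mul_cancel_left] at this

theorem comm_of_conj {c g x : Γ} (h : Commute c (g * x * g⁻¹)) (hg : Commute c g) :
    Commute c x := by
  have := (hg.inv_right.mul_right h).mul_right hg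
  have e : g⁻¹ * (g * x * g⁻¹) * g = x := by group
  rwa [e] at this

theorem comm_of_conj' {c g x : Γ} (h : Commute c (g⁻¹ * x * g)) (hg : Commute c g) :
    Commute c x := by
  have := (hg.mul_right h).mul_right hg.inv_right
  have e : g * (g⁻¹ * x * g) * g⁻¹ = x := by group
  rwa [e] at this

/-- the relations of the pure braid group on four strands -/
structure PB4 (x12 x13 x14 x23 x24 x34 : Γ) : Prop where
  a1 : Commute (x12 * x13 * x23) x12
  a2 : Commute (x12 * x13 * x23) x13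
  a3 : Commute (x12 * x13 * x23) x23
  b1 : Commute (x12 * x14 * x24) x12
  b2 : Commute (x12 * x14 * x24) x14
  b3 : Commute (x12 * x14 * x24) x24
  c1 : Commute (x13 * x14 * x34) x13
  c2 : Commute (x13 * x14 * x34) x14
  c3 : Commute (x13 * x14 * x34) x34
  d1 : Commute (x23 * x24 * x34) x23
  d2 : Commute (x23 * x24 * x34) x24
  d3 : Commute (x23 * x24 * x34) x34
  n1 : Commute x12 x34
  n2 : Commute x14 x23
  cr : Commute x13 (x34⁻¹ * x24 * x34)

theorem cyc {x y z : Γ} (h : Commute (x * y * z) x) : y * z * x = x * y * z := by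
  have h1 : x * y * z * x = x * (x * y * z) := h
  calc y * z * x = x⁻¹ * (x * y * z * x) := by group
    _ = x * y * z := by rw [h1]; group

theorem cyc' {x y z : Γ} (h : Commute (x * y * z) z) : z * x * y = x * y * z := by
  have h1 : x * y * z * z = z * (x * y * z) := h
  calc z * x * y = z * (x * y * z) * z⁻¹ := by group
    _ = x * y * z := by rw [← h1]; group

/-- `z` conjugates as the inverse of `x * y` -/
theorem tconj {x y z w : Γ} (h : Commute (x * y * z) w) (hz : Commute (x * y * z) z) :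
    z * w * z⁻¹ = (x * y)⁻¹ * w * (x * y) := by
  have h1 : x * y * z * w = w * (x * y * z) := h
  calc z * w * z⁻¹ = (x * y)⁻¹ * (x * y * z * w) * z⁻¹ := by group
    _ = (x * y)⁻¹ * w * (x * y) := by rw [h1]; group

variable {x12 x13 x14 x23 x24 x34 : Γ}

/-- rotation of the four points -/
theorem PB4.rot (h : PB4 x12 x13 x14 x23 x24 x34) : PB4 x23 x24 x12 x34 x13 x14 := by
  have e1 : x23 * x12 * x13 = x12 * x13 * x23 := cyc' h.a3
  have e2 : x24 * x12 * x14 = x12 * x14 * x24 := cyc' h.b3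
  have e3 : x34 * x13 * x14 = x13 * x14 * x34 := cyc' h.c3
  refine ⟨h.d1, h.d2, h.d3, ?_, ?_, ?_, ?_, ?_, ?_, ?_, ?_, ?_, h.n2.symm, h.n1, ?_⟩
  · rw [e1]; exact h.a3
  · rw [e1]; exact h.a1
  · rw [e1]; exact h.a2
  · rw [e2]; exact h.b3
  · rw [e2]; exact h.b1
  · rw [e2]; exact h.b2
  · rw [e3]; exact h.c3
  · rw [e3]; exact h.c1
  · rw [e3]; exact h.c2
  · -- the crossing relation
    have h1 : x13 * (x34⁻¹ * x24 * x34) = x34⁻¹ * x24 * x34 * x13 := h.cr
    have h2 : Commute (x34 * x13 * x34⁻¹) x24 := by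
      rw [commute_iff_eq]
      calc x34 * x13 * x34⁻¹ * x24 = x34 * (x13 * (x34⁻¹ * x24 * x34)) * x34⁻¹ := by group
        _ = x24 * (x34 * x13 * x34⁻¹) := by rw [h1]; group
    have h3 : x34 * x13 * x34⁻¹ = x14⁻¹ * x13 * x14 := by
      rw [tconj h.c1 h.c3]
      group
    rw [h3] at h2
    exact h2.symm

/-- the product of the generators on the last strand commutes with the others -/
theorem PB4.dcomm (h : PB4 x12 x13 x14 x23 x24 x34) :
    Commute (x14 * x24 * x34) x12 ∧ Commute (x14 * x24 * x34) x13 ∧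
      Commute (x14 * x24 * x34) x23 := by
  refine ⟨?_, ?_, ?_⟩
  · have h1 : Commute x12 (x14 * x24) := by
      have h2 : Commute x12 (x12 * (x14 * x24)) := by
        rw [← mul_assoc]; exact h.b1.symm
      exact comm_right_of_mul h2 (Commute.refl _)
    exact (h1.mul_right h.n1).symm
  · have h1 : Commute x13 (x14 * x34) := by
      have h2 : Commute x13 (x13 * (x14 * x34)) := by
        rw [← mul_assoc]; exact h.c1.symm
      exact comm_right_of_mul h2 (Commute.refl _)
    have h2 := h1.mul_right h.cr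
    have e : x14 * x34 * (x34⁻¹ * x24 * x34) = x14 * x24 * x34 := by group
    rw [e] at h2
    exact h2.symm
  · have h1 : Commute x23 (x24 * x34) := by
      have h2 : Commute x23 (x23 * (x24 * x34)) := by
        rw [← mul_assoc]; exact h.d1.symm
      exact comm_right_of_mul h2 (Commute.refl _)
    have h2 := h.n2.symm.mul_right h1
    rw [← mul_assoc] at h2
    exact h2.symm

/-- the two forms of the full twist -/
theorem PB4.full (h : PB4 x12 x13 x14 x23 x24 x34) :
    x12 * x13 * x23 * (x14 * x24 * x34) = x23 * x24 * x34 * (x12 * x13 * x14) := by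
  obtain ⟨h1, h2, h3⟩ := h.rot.dcomm
  -- `x12 * x13 * x14` commutes with `x23`, `x24`, `x34`
  have h4 : Commute (x12 * x13 * x14) (x23 * x24 * x34) := (h1.mul_right h2).mul_right h3
  rw [← h4.eq]
  have h5 : x14 * x23 = x23 * x14 := h.n2
  calc x12 * x13 * x23 * (x14 * x24 * x34) = x12 * x13 * (x23 * x14) * x24 * x34 := by group
    _ = x12 * x13 * (x14 * x23) * x24 * x34 := by rw [h5]
    _ = _ := by group

/-- the full twist commutes with everything -/
theorem PB4.central (h : PB4 x12 x13 x14 x23 x24 x34) :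
    Commute (x12 * x13 * x23 * (x14 * x24 * x34)) x14 ∧
      Commute (x12 * x13 * x23 * (x14 * x24 * x34)) x24 ∧
      Commute (x12 * x13 * x23 * (x14 * x24 * x34)) x34 := by
  have key : ∀ {y12 y13 y14 y23 y24 y34 : Γ}, PB4 y12 y13 y14 y23 y24 y34 →
      Commute (y12 * y13 * y23 * (y14 * y24 * y34)) y12 ∧
      Commute (y12 * y13 * y23 * (y14 * y24 * y34)) y13 ∧
      Commute (y12 * y13 * y23 * (y14 * y24 * y34)) y23 := by
    intro y12 y13 y14 y23 y24 y34 h
    obtain ⟨h1, h2, h3⟩ := h.dcomm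
    exact ⟨h.a1.mul_left h1, h.a2.mul_left h2, h.a3.mul_left h3⟩
  have h1 := key h.rot
  rw [← h.full] at h1
  have h2 := key h.rot.rot
  rw [← h.rot.full, ← h.full] at h2
  exact ⟨h2.2.2, h1.2.1, h1.2.2⟩

/-- elements commuting with the generators on one strand are central -/
structure Sch (x12 x13 x14 x23 x24 x34 : Γ) : Prop where
  s1 : ∀ T, Commute T x12 → Commute T x13 → Commute T x14 → Cen T
  s2 : ∀ T, Commute T x12 → Commute T x23 → Commute T x24 → Cen T
  s3 : ∀ T, Commute T x13 → Commute T x23 → Commute T x34 → Cen T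
  s4 : ∀ T, Commute T x14 → Commute T x24 → Commute T x34 → Cen T

theorem Sch.rot (h : Sch x12 x13 x14 x23 x24 x34) : Sch x23 x24 x12 x34 x13 x14 :=
  ⟨fun T h1 h2 h3 => h.s2 T h3 h1 h2, fun T h1 h2 h3 => h.s3 T h3 h1 h2,
    fun T h1 h2 h3 => h.s4 T h3 h1 h2, fun T h1 h2 h3 => h.s1 T h1 h2 h3⟩

theorem PB4.reg12 (h : PB4 x12 x13 x14 x23 x24 x34) (hs : Sch x12 x13 x14 x23 x24 x34)
    (hr : RegG x12) :
    Cen (x12 * x14 * x24) ∧ Cen (x12 * x13 * x23) ∧ ∃ c, Cen c ∧ x34 = c * x12 := by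
  have hw : Commute x12 (x14 * x24) := by
    have h2 : Commute x12 (x12 * (x14 * x24)) := by rw [← mul_assoc]; exact h.b1.symm
    exact comm_right_of_mul h2 (Commute.refl _)
  have hw' : Commute x12 (x13 * x23) := by
    have h2 : Commute x12 (x12 * (x13 * x23)) := by rw [← mul_assoc]; exact h.a1.symm
    exact comm_right_of_mul h2 (Commute.refl _)
  have h1 : Cen (x12 * x14 * x24) := by
    refine hs.s4 _ h.b2 h.b3 ?_
    rw [mul_assoc]
    exact h.n1.mul_left (hr _ _ hw h.n1)
  have h2 : Cen (x12 * x13 * x23) := by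
    refine hs.s3 _ h.a2 h.a3 ?_
    rw [mul_assoc]
    exact h.n1.mul_left (hr _ _ hw' h.n1)
  have h3 : Cen (x14 * x24 * x34) := by
    obtain ⟨e1, e2, e3⟩ := h.central
    have h4 := hs.s4 _ e1 e2 e3
    have h5 := h2.inv.mul h4
    rwa [inv_mul_cancel_left] at h5
  refine ⟨h1, h2, (x12 * x14 * x24)⁻¹ * (x14 * x24 * x34), h1.inv.mul h3, ?_⟩
  rw [mul_assoc, (h3 x12).eq]
  group

theorem PB4.reg13 (h : PB4 x12 x13 x14 x23 x24 x34) (hs : Sch x12 x13 x14 x23 x24 x34)
    (hr : RegG x13) :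
    Cen (x13 * x14 * x34) ∧ Cen (x12 * x13 * x23) ∧ ∃ c, Cen c ∧
      x34⁻¹ * x24 * x34 = c * x13 := by
  have hw : Commute x13 (x14 * x34) := by
    have h2 : Commute x13 (x13 * (x14 * x34)) := by rw [← mul_assoc]; exact h.c1.symm
    exact comm_right_of_mul h2 (Commute.refl _)
  have e1 : x13 * x23 * x12 = x12 * x13 * x23 := cyc h.a1
  have hw' : Commute x13 (x23 * x12) := by
    have h2 : Commute x13 (x13 * (x23 * x12)) := by
      rw [← mul_assoc, e1]; exact h.a2.symm
    exact comm_right_of_mul h2 (Commute.refl _)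
  have h1 : Cen (x13 * x14 * x34) := by
    refine hs.s4 _ h.c2 ?_ h.c3
    have h2 : Commute (x13 * x14 * x34) (x34⁻¹ * x24 * x34) := by
      rw [mul_assoc]
      exact h.cr.mul_left (hr _ _ hw h.cr)
    exact comm_of_conj' h2 h.c3
  have e2 : x34⁻¹ * x24 * x34 = x23 * x24 * x23⁻¹ := by
    have h4 : Commute (x23 * x24 * x34) ((x23 * x24) * x24 * (x23 * x24)⁻¹) :=
      ((h.d1.mul_right h.d2).mul_right h.d2).mul_right (h.d1.mul_right h.d2).inv_right
    calc x34⁻¹ * x24 * x34 = (x23 * x24 * x34)⁻¹ *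
          (((x23 * x24) * x24 * (x23 * x24)⁻¹) * (x23 * x24 * x34)) := by group
      _ = (x23 * x24 * x34)⁻¹ * ((x23 * x24 * x34) *
          ((x23 * x24) * x24 * (x23 * x24)⁻¹)) := by rw [h4.eq]
      _ = x23 * x24 * x23⁻¹ := by group
  have h2 : Cen (x12 * x13 * x23) := by
    refine hs.s2 _ h.a1 h.a3 ?_
    have h2 : Commute (x12 * x13 * x23) (x34⁻¹ * x24 * x34) := by
      rw [← e1, mul_assoc]
      exact h.cr.mul_left (hr _ _ hw' h.cr)
    rw [e2] at h2
    exact comm_of_conj h2 h.a3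
  have h3 : Cen (x14 * x24 * x34) := by
    obtain ⟨e1, e2, e3⟩ := h.central
    have h4 := hs.s4 _ e1 e2 e3
    have h5 := h2.inv.mul h4
    rwa [inv_mul_cancel_left] at h5
  refine ⟨h1, h2, (x13 * x14 * x34)⁻¹ * (x14 * x24 * x34), h1.inv.mul h3, ?_⟩
  calc x34⁻¹ * x24 * x34 = (x13 * x14 * x34)⁻¹ * (x13 * (x14 * x24 * x34)) := by group
    _ = (x13 * x14 * x34)⁻¹ * ((x14 * x24 * x34) * x13) := by rw [(h3 x13).eq]
    _ = _ := by group

/-- the four full twists of three strands are central -/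
def AllCen (x12 x13 x14 x23 x24 x34 : Γ) : Prop :=
  Cen (x12 * x13 * x23) ∧ Cen (x12 * x14 * x24) ∧ Cen (x13 * x14 * x34) ∧ Cen (x23 * x24 * x34)

theorem PB4.all12 (h : PB4 x12 x13 x14 x23 x24 x34) (hs : Sch x12 x13 x14 x23 x24 x34)
    (hr : RegG x12) : AllCen x12 x13 x14 x23 x24 x34 := by
  obtain ⟨h1, h2, c, hc, e⟩ := h.reg12 hs hr
  have hr' : RegG x34 := by rw [e]; exact hr.cen_mul hc
  obtain ⟨h3, h4, -⟩ := h.rot.rot.reg12 hs.rot.rot hr'
  -- `h3 : Cen (x34 * x23 * x24)`, `h4 : Cen (x34 * x13 * x14)`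
  refine ⟨h2, h1, ?_, ?_⟩
  · rw [cyc' h.c3] at h4; exact h4
  · rw [cyc' h.d3] at h3; exact h3

theorem PB4.all13 (h : PB4 x12 x13 x14 x23 x24 x34) (hs : Sch x12 x13 x14 x23 x24 x34)
    (hr : RegG x13) : AllCen x12 x13 x14 x23 x24 x34 := by
  obtain ⟨h1, h2, c, hc, e⟩ := h.reg13 hs hr
  have hr' : RegG x24 := by
    have h3 := (hr.cen_mul hc).conj x34
    rw [← e] at h3
    have e4 : x34 * (x34⁻¹ * x24 * x34) * x34⁻¹ = x24 := by group
    rwa [e4] at h3
  obtain ⟨h3, h4, -⟩ := h.rot.reg13 hs.rot hr'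
  -- `h3 : Cen (x24 * x12 * x14)`, `h4 : Cen (x23 * x24 * x34)`
  refine ⟨h2, ?_, h1, h4⟩
  rw [cyc' h.b3] at h3; exact h3

theorem AllCen.unrot (h : PB4 x12 x13 x14 x23 x24 x34)
    (hc : AllCen x23 x24 x12 x34 x13 x14) : AllCen x12 x13 x14 x23 x24 x34 := by
  obtain ⟨h1, h2, h3, h4⟩ := hc
  rw [cyc' h.a3] at h2
  rw [cyc' h.b3] at h3
  rw [cyc' h.c3] at h4
  exact ⟨h2, h3, h4, h1⟩

/-- **Four strands.** -/
theorem PB4.all (h : PB4 x12 x13 x14 x23 x24 x34) (hs : Sch x12 x13 x14 x23 x24 x34)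
    (hr : RegG x12 ∨ RegG x13 ∨ RegG x14 ∨ RegG x23 ∨ RegG x24 ∨ RegG x34) :
    AllCen x12 x13 x14 x23 x24 x34 := by
  rcases hr with hr | hr | hr | hr | hr | hr
  · exact h.all12 hs hr
  · exact h.all13 hs hr
  · exact AllCen.unrot h (AllCen.unrot h.rot (AllCen.unrot h.rot.rot
      (h.rot.rot.rot.all12 hs.rot.rot.rot hr)))
  · exact AllCen.unrot h (h.rot.all12 hs.rot hr)
  · exact AllCen.unrot h (h.rot.all13 hs.rot hr)
  · exact AllCen.unrot h (AllCen.unrot h.rot (h.rot.rot.all12 hs.rot.rot hr))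

end Pool.Agent.PB3
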