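import Pool.Agent.Conf14.Rel
import Pool.Agent.PB3.Four

/-!
# Families with the pure braid relations

Pure group theory for a family with the relations of the pure braid group such that an element
which commutes with the generators on one active strand is central.
-/

set_option autoImplicit false

namespace Pool.Agent.PB3

open Pool.Agent.Conf14 (PB)

variable {n : ℕ} {Γ : Type*} [Group Γ] {a : Fin n → Fin n → Γ}

/-- chords which cross, the strand `s` inside -/
theorem cross_in (h : PB a) {s k l j : Fin n} (h1 : k < s ∧ s < l) (hjk : j ≠ k) (hjl : j ≠ l)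
    (h2 : ¬ (k < j ∧ j < l)) : Commute (a k l) (a s l * a s j * (a s l)⁻¹) := by
  rcases lt_or_gt_of_ne hjk with h3 | h3
  · have := h.q3 j k s l h3 h1.1 h1.2
    rw [h.symm j s] at this
    exact this.symm
  · have h4 : l < j := by
      rcases lt_or_gt_of_ne hjl with h5 | h5
      · exact absurd ⟨h3, h5⟩ h2
      · exact h5
    have q := h.q3 k s l j h1.1 h1.2 h4
    have q' : Commute (a k l) ((a l j)⁻¹ * a s j * a l j) := by
      have : a l j * a k l * (a l j)⁻¹ * a s j = a s j * (a l j * a k l * (a l j)⁻¹) := q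
      show a k l * ((a l j)⁻¹ * a s j * a l j) = (a l j)⁻¹ * a s j * a l j * a k l
      calc a k l * ((a l j)⁻¹ * a s j * a l j) =
          (a l j)⁻¹ * (a l j * a k l * (a l j)⁻¹ * a s j) * a l j := by group
        _ = _ := by rw [this]; group
    have c1 := h.t1 s l j h1.2 h4
    obtain ⟨z, hz⟩ : ∃ z, z = a s l * a s j * a l j := ⟨_, rfl⟩
    rw [← hz] at c1
    have hlj : a l j = (a s l * a s j)⁻¹ * z := by rw [hz]; group
    have c0 : Commute z (a s l) := by rw [hz]; exact h.t0 h1.2 h4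
    have e2 : (a l j)⁻¹ * a s j * a l j = a s l * a s j * (a s l)⁻¹ := by
      have c3 : Commute z ((a s l * a s j) * a s j * (a s l * a s j)⁻¹) :=
        ((c0.mul_right c1).mul_right c1).mul_right (c0.mul_right c1).inv_right
      have c4 : z * ((a s l * a s j) * a s j * (a s l * a s j)⁻¹) =
        ((a s l * a s j) * a s j * (a s l * a s j)⁻¹) * z := c3
      rw [hlj]
      calc ((a s l * a s j)⁻¹ * z)⁻¹ * a s j * ((a s l * a s j)⁻¹ * z) =
          z⁻¹ * (((a s l * a s j) * a s j * (a s l * a s j)⁻¹) * z) := by group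
        _ = _ := by rw [← c4]; group
    rwa [e2] at q'

/-- chords which cross, the strand `s` outside -/
theorem cross_out (h : PB a) {s k l j : Fin n} (h1 : ¬ (k < s ∧ s < l)) (hsk : s ≠ k)
    (hsl : s ≠ l) (h2 : k < j ∧ j < l) : Commute (a k l) ((a s l)⁻¹ * a s j * a s l) := by
  rcases lt_or_gt_of_ne hsk with h3 | h3
  · have q := h.q3 s k j l h3 h2.1 h2.2
    have hsj : s < j := h3.trans h2.1
    have e := Pool.Agent.Conf14.g1 (h.t0 hsj h2.2)
    have e2 : a j l * a s j * (a j l)⁻¹ = (a s l)⁻¹ * a s j * a s l := by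
      rw [e]; group
    rw [e2] at q
    exact q.symm
  · have h4 : l < s := by
      rcases lt_or_gt_of_ne hsl with h5 | h5
      · exact absurd ⟨h3, h5⟩ h1
      · exact h5
    have q := h.q3 k j l s h2.1 h2.2 h4
    rw [h.symm s l, h.symm s j]
    have : a l s * a k l * (a l s)⁻¹ * a j s = a j s * (a l s * a k l * (a l s)⁻¹) := q
    show a k l * ((a l s)⁻¹ * a j s * a l s) = (a l s)⁻¹ * a j s * a l s * a k l
    calc a k l * ((a l s)⁻¹ * a j s * a l s) =
        (a l s)⁻¹ * (a l s * a k l * (a l s)⁻¹ * a j s) * a l s := by group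
      _ = _ := by rw [this]; group

/-- the strand `s` is active: some generator on it is not central -/
def Act (a : Fin n → Fin n → Γ) (s : Fin n) : Prop := ∃ j, j ≠ s ∧ ¬ Cen (a s j)

/-- the elements which commute with the generators on one active strand are central -/
def SchurP (a : Fin n → Fin n → Γ) : Prop :=
  ∀ s, Act a s → ∀ T : Γ, (∀ j, j ≠ s → Commute T (a s j)) → Cen T

theorem cen_of_comm (h : PB a) (hS : SchurP a) {s k l : Fin n} (hs : Act a s) (hsk : s ≠ k)
    (hsl : s ≠ l) (hkl : k ≠ l) (hc : Commute (a s k) (a s l)) : Cen (a k l) :=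
  hS s hs _ fun _ hj => (h.conj hsk hsl hkl hj).2 hc

theorem not_cen (h : PB a) (hS : SchurP a) {k l : Fin n} (hk : Act a k) (hl : Act a l)
    (hkl : k ≠ l) : ¬ Cen (a k l) := by
  intro hc
  obtain ⟨j, hj, hj'⟩ := hl
  by_cases hjk : j = k
  · subst hjk
    rw [h.symm] at hj'
    exact hj' hc
  · exact hj' (cen_of_comm h hS hk hkl (Ne.symm hjk) hj.symm (hc _))

theorem not_comm (h : PB a) (hS : SchurP a) {s k l : Fin n} (hs : Act a s) (hk : Act a k)
    (hl : Act a l) (hsk : s ≠ k) (hsl : s ≠ l) (hkl : k ≠ l) : ¬ Commute (a s k) (a s l) :=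
  fun hc => not_cen h hS hk hl hkl (cen_of_comm h hS hs hsk hsl hkl hc)

/-- the generators from one strand to two strands on the same side of a regular chord commute -/
theorem comm_of_side (h : PB a) {l m : Fin n} (hlm : l < m) (hr : RegG (a l m)) {i j k : Fin n}
    (hki : k ≠ i) (hkj : k ≠ j) (hil : i ≠ l) (him : i ≠ m) (hjl : j ≠ l) (hjm : j ≠ m)
    (hkl : k ≠ l) (hkm : k ≠ m) (hside : (l < i ∧ i < m) ↔ (l < j ∧ j < m)) :
    Commute (a k i) (a k j) := by
  by_cases hx : (l < k ∧ k < m) ↔ (l < i ∧ i < m)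
  · have h1 := h.disj hkl hkm hlm hki.symm hil him hx
    have h2 := h.disj hkl hkm hlm hkj.symm hjl hjm (hx.trans hside)
    exact hr _ _ h1 h2
  · by_cases hk : l < k ∧ k < m
    · have hi : ¬ (l < i ∧ i < m) := fun h' => hx ⟨fun _ => h', fun _ => hk⟩
      have hj : ¬ (l < j ∧ j < m) := fun h' => hi (hside.2 h')
      have h1 := cross_in h hk hil him hi
      have h2 := cross_in h hk hjl hjm hj
      exact (Commute.conj_iff (a k m)).1 (hr _ _ h1 h2)
    · have hi : l < i ∧ i < m := by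
        by_contra h'
        exact hx ⟨fun h'' => absurd h'' hk, fun h'' => absurd h'' h'⟩
      have hj : l < j ∧ j < m := hside.1 hi
      have h1 := cross_out h hk hkl hkm hi
      have h2 := cross_out h hk hkl hkm hj
      have h3 := hr _ _ h1 h2
      have e : ∀ x : Γ, (a k m)⁻¹ * x * a k m = (a k m)⁻¹ * x * ((a k m)⁻¹)⁻¹ := by
        intro x; rw [inv_inv]
      rw [e, e] at h3
      exact (Commute.conj_iff (a k m)⁻¹).1 h3

/-- a regular chord and three more active strands are impossible -/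
theorem no_five (h : PB a) (hS : SchurP a) {l m : Fin n} (hlm : l < m) (hr : RegG (a l m))
    {i j k : Fin n} (hi : Act a i) (hj : Act a j) (hk : Act a k) (hij : i ≠ j) (hik : i ≠ k)
    (hjk : j ≠ k) (hil : i ≠ l) (him : i ≠ m) (hjl : j ≠ l) (hjm : j ≠ m) (hkl : k ≠ l)
    (hkm : k ≠ m) : False := by
  by_cases h1 : (l < i ∧ i < m) ↔ (l < j ∧ j < m)
  · exact not_comm h hS hk hi hj hik.symm hjk.symm hij
      (comm_of_side h hlm hr hik.symm hjk.symm hil him hjl hjm hkl hkm h1)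
  by_cases h2 : (l < i ∧ i < m) ↔ (l < k ∧ k < m)
  · exact not_comm h hS hj hi hk hij.symm hjk hik
      (comm_of_side h hlm hr hij.symm hjk hil him hkl hkm hjl hjm h2)
  by_cases h3 : (l < j ∧ j < m) ↔ (l < k ∧ k < m)
  · exact not_comm h hS hi hj hk hij hik hjk
      (comm_of_side h hlm hr hij hik hjl hjm hkl hkm hil him h3)
  tauto

/-- the family comes from three strands -/
def Three (a : Fin n → Fin n → Γ) : Prop :=
  ∃ i j k : Fin n, i < j ∧ j < k ∧ Cen (a i j * a i k * a j k) ∧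
    ∀ s t, s ≠ t → ¬ ((s = i ∨ s = j ∨ s = k) ∧ (t = i ∨ t = j ∨ t = k)) → Cen (a s t)

/-- the family comes from the cross ratio of four strands -/
def Cross (a : Fin n → Fin n → Γ) : Prop :=
  ∃ b c d e : Fin n, b < c ∧ c < d ∧ d < e ∧
    (Cen (a d e * (a b c)⁻¹) ∧ Cen (a b e * (a c d)⁻¹) ∧ Cen (a b d * (a c d * a b c)) ∧
      Cen (a c e * (a b c * a c d))) ∧
    ∀ s t, s ≠ t → ¬ ((s = b ∨ s = c ∨ s = d ∨ s = e) ∧ (t = b ∨ t = c ∨ t = d ∨ t = e)) →
      Cen (a s t)

theorem PB.four (h : PB a) {b c d e : Fin n} (h1 : b < c) (h2 : c < d) (h3 : d < e) :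
    PB4 (a b c) (a b d) (a b e) (a c d) (a c e) (a d e) where
  a1 := h.t0 h1 h2
  a2 := h.t1 _ _ _ h1 h2
  a3 := h.t2 _ _ _ h1 h2
  b1 := h.t0 h1 (h2.trans h3)
  b2 := h.t1 _ _ _ h1 (h2.trans h3)
  b3 := h.t2 _ _ _ h1 (h2.trans h3)
  c1 := h.t0 (h1.trans h2) h3
  c2 := h.t1 _ _ _ (h1.trans h2) h3
  c3 := h.t2 _ _ _ (h1.trans h2) h3
  d1 := h.t0 h2 h3
  d2 := h.t1 _ _ _ h2 h3
  d3 := h.t2 _ _ _ h2 h3
  n1 := h.q1 _ _ _ _ h1 h2 h3
  n2 := h.q2 _ _ _ _ h1 h2 h3
  cr := by
    have q : Commute (a d e * a b d * (a d e)⁻¹) (a c e) := h.q3 _ _ _ _ h1 h2 h3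
    have q' : a d e * a b d * (a d e)⁻¹ * a c e = a c e * (a d e * a b d * (a d e)⁻¹) := q
    rw [commute_iff_eq]
    calc a b d * ((a d e)⁻¹ * a c e * a d e) =
        (a d e)⁻¹ * (a d e * a b d * (a d e)⁻¹ * a c e) * a d e := by group
      _ = _ := by rw [q']; group

theorem Cen.of_mul_left {x y : Γ} (hx : Cen x) (h : Cen (x * y)) : Cen y := by
  have := hx.inv.mul h
  rwa [inv_mul_cancel_left] at this

theorem Cen.of_mul_right {x y : Γ} (hy : Cen y) (h : Cen (x * y)) : Cen x := by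
  have := h.mul hy.inv
  rwa [mul_inv_cancel_right] at this

/-- a central product can be rotated -/
theorem Cen.cyc {x y : Γ} (h : Cen (x * y)) : Cen (y * x) := by
  have := h.conj x⁻¹
  have e : x⁻¹ * (x * y) * x⁻¹⁻¹ = y * x := by group
  rwa [e] at this

/-- four strands: the other generators in terms of two of them -/
theorem PB4.cross {x12 x13 x14 x23 x24 x34 : Γ} (h : PB4 x12 x13 x14 x23 x24 x34)
    (hs : Sch x12 x13 x14 x23 x24 x34) (hc : AllCen x12 x13 x14 x23 x24 x34) :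
    Cen (x34 * x12⁻¹) ∧ Cen (x14 * x23⁻¹) ∧ Cen (x13 * (x23 * x12)) ∧
      Cen (x24 * (x12 * x23)) := by
  obtain ⟨c1, c2, c3, c4⟩ := hc
  have hD : Cen (x14 * x24 * x34) := by
    obtain ⟨e1, e2, e3⟩ := h.central
    exact c1.of_mul_left (hs.s4 _ e1 e2 e3)
  -- `x34 = (x14 * x24)⁻¹ * D`, `x14 * x24 = x12⁻¹ * Z`
  have k1 : Cen (x34 * x12⁻¹) := by
    have h1 : Cen (x12 * (x14 * x24)) := by rwa [← mul_assoc]
    have h2 := hD.mul h1.cyc.inv
    have e : x14 * x24 * x34 * (x14 * x24 * x12)⁻¹ =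
        (x14 * x24) * (x34 * x12⁻¹) * (x14 * x24)⁻¹ := by group
    rw [e] at h2
    exact h2.of_conj
  have k2 : Cen (x14 * x23⁻¹) := by
    -- `x14 * (x24 * x34)` and `x23 * (x24 * x34)` are central
    have h1 : Cen (x14 * (x24 * x34)) := by rwa [← mul_assoc]
    have h2 : Cen (x23 * (x24 * x34)) := by rwa [← mul_assoc]
    have h3 := h1.mul h2.inv
    have e : x14 * (x24 * x34) * (x23 * (x24 * x34))⁻¹ = x14 * x23⁻¹ := by group
    rwa [e] at h3
  have k3 : Cen (x13 * (x23 * x12)) := by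
    have h1 : Cen (x12 * (x13 * x23)) := by rwa [← mul_assoc]
    have h2 := h1.cyc
    rwa [mul_assoc] at h2
  refine ⟨k1, k2, k3, ?_⟩
  -- `x12 * x14 * x24` central and `x14 = c * x23`
  have h1 : Cen ((x12 * x14) * x24) := c2
  have h2 := h1.cyc
  -- `x24 * (x12 * x14)`
  have h3 : Cen (x24 * (x12 * x14) * (x14 * x23⁻¹)⁻¹) := h2.mul k2.inv
  have e : x24 * (x12 * x14) * (x14 * x23⁻¹)⁻¹ = x24 * (x12 * (x14 * (x14 * x23⁻¹)⁻¹)) := by group
  rw [e] at h3
  have e2 : x14 * (x14 * x23⁻¹)⁻¹ = x23 := by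
    rw [← (k2.inv x14).eq]
    group
  rwa [e2] at h3

end Pool.Agent.PB3
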