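import Pool.Agent.PB3.Tri
import Pool.Agent.Conf14.Refl

/-!
# Irreducible families of prime rank

If the rank is prime, the generators on one strand act irreducibly as soon as they are not all
scalars.
-/

set_option autoImplicit false

namespace Pool.Agent.PB3

open Pool.Agent.Conf14 (PB inv_mem_of_mem closure_mem)
open Module

variable {n : ℕ} {V : Type*} [AddCommGroup V] [Module ℂ V]
  {a : Fin n → Fin n → (V ≃ₗ[ℂ] V)}

/-- the family is irreducible -/
def IrrF (a : Fin n → Fin n → (V ≃ₗ[ℂ] V)) : Prop :=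
  ∀ W : Submodule ℂ V, (∀ i j, i ≠ j → ∀ x ∈ W, a i j x ∈ W) → W = ⊥ ∨ W = ⊤

/-- invariance under the generators on the strand `s` -/
def InvS (a : Fin n → Fin n → (V ≃ₗ[ℂ] V)) (s : Fin n) (W : Submodule ℂ V) : Prop :=
  ∀ j, j ≠ s → ∀ x ∈ W, a s j x ∈ W

theorem cen_of_scalar {T : V ≃ₗ[ℂ] V} {c : ℂ} (h : ∀ x, T x = c • x) : Cen T := by
  intro y
  refine LinearEquiv.ext fun x => ?_
  show T (y x) = y (T x)
  rw [h, h, map_smul]

/-- Schur's lemma -/
theorem schur [FiniteDimensional ℂ V] [Nontrivial V] {S : Set (V ≃ₗ[ℂ] V)}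
    (hirr : ∀ W : Submodule ℂ V, (∀ f ∈ S, ∀ x ∈ W, f x ∈ W) → W = ⊥ ∨ W = ⊤)
    (T : V ≃ₗ[ℂ] V) (hT : ∀ f ∈ S, Commute T f) : ∃ c : ℂ, ∀ x, T x = c • x := by
  obtain ⟨c, hc⟩ := Module.End.exists_eigenvalue (T : V →ₗ[ℂ] V)
  refine ⟨c, ?_⟩
  rcases hirr (End.eigenspace (T : V →ₗ[ℂ] V) c) (by
    intro f hf x hx
    rw [End.mem_eigenspace_iff] at hx ⊢
    have h1 : T (f x) = f (T x) := LinearEquiv.congr_fun (hT f hf).eq x
    show T (f x) = c • f x
    rw [h1]
    have h2 : T x = c • x := hx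
    rw [h2, map_smul]) with h | h
  · exact absurd h hc
  · intro x
    have : x ∈ End.eigenspace (T : V →ₗ[ℂ] V) c := by rw [h]; exact Submodule.mem_top
    exact End.mem_eigenspace_iff.1 this

theorem InvS.map (h : PB a) {s k l : Fin n} (hk : s ≠ k) (hl : s ≠ l) (hkl : k ≠ l)
    [FiniteDimensional ℂ V] {W : Submodule ℂ V} (hW : InvS a s W) :
    InvS a s (W.map ((a k l)⁻¹ : V ≃ₗ[ℂ] V).toLinearMap) := by
  rintro j hj _ ⟨x, hx, rfl⟩
  obtain ⟨⟨g, hg, e⟩, -⟩ := h.conj hk hl hkl hj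
  have hS : ∀ f ∈ ({a s k, a s l} : Set (V ≃ₗ[ℂ] V)), ∀ x ∈ W, f x ∈ W := by
    rintro f (rfl | hf)
    · exact hW k hk.symm
    · rw [Set.mem_singleton_iff.mp hf]
      exact hW l hl.symm
  have hy : (g * a s j * g⁻¹) x ∈ W :=
    closure_mem _ W hS g hg _ (hW j hj _ (closure_mem _ W hS _ (inv_mem hg) x hx))
  refine ⟨_, hy, ?_⟩
  have e' : (a k l)⁻¹ * (g * a s j * g⁻¹) = a s j * (a k l)⁻¹ := by
    rw [← e]; group
  exact LinearEquiv.congr_fun e' x

theorem InvS.sup {s : Fin n} {W W' : Submodule ℂ V} (h : InvS a s W) (h' : InvS a s W') :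
    InvS a s (W ⊔ W') := by
  intro j hj x hx
  obtain ⟨y, hy, z, hz, rfl⟩ := Submodule.mem_sup.1 hx
  rw [map_add]
  exact Submodule.add_mem_sup (h j hj y hy) (h' j hj z hz)

theorem InvS.inf {s : Fin n} {W W' : Submodule ℂ V} (h : InvS a s W) (h' : InvS a s W') :
    InvS a s (W ⊓ W') := fun j hj x hx => ⟨h j hj x hx.1, h' j hj x hx.2⟩

/-- **Clifford's theorem in prime rank.** -/
theorem irr_strand [FiniteDimensional ℂ V] (h : PB a) (hirr : IrrF a)
    (hp : (finrank ℂ V).Prime) {s : Fin n} (hs : Act a s) (W : Submodule ℂ V)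
    (hW : InvS a s W) : W = ⊥ ∨ W = ⊤ := by
  classical
  have : Nontrivial V := Module.nontrivial_of_finrank_pos (R := ℂ) hp.pos
  by_contra hcon
  push Not at hcon
  -- the minimal dimension
  have hex : ∃ d : ℕ, ∃ W : Submodule ℂ V, W ≠ ⊥ ∧ InvS a s W ∧ finrank ℂ W = d :=
    ⟨_, W, hcon.1, hW, rfl⟩
  obtain ⟨W1, hW1, hI1, hd1⟩ := Nat.find_spec hex
  have hmin : ∀ U : Submodule ℂ V, U ≠ ⊥ → InvS a s U → Nat.find hex ≤ finrank ℂ U :=
    fun U h1 h2 => Nat.find_min' hex ⟨U, h1, h2, rfl⟩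
  obtain ⟨d, hd⟩ : ∃ d, d = Nat.find hex := ⟨_, rfl⟩
  rw [← hd] at hd1 hmin
  have hdpos : 0 < d := by
    rw [← hd1]
    exact Nat.pos_of_ne_zero fun h0 => hW1 (Submodule.finrank_eq_zero.1 h0)
  have hdlt : d < finrank ℂ V :=
    lt_of_le_of_lt (hmin W hcon.1 hW) (Submodule.finrank_lt hcon.2)
  -- the span of the invariant subspaces of minimal dimension
  set F : Set (Submodule ℂ V) := {U | InvS a s U ∧ finrank ℂ U = d} with hF
  have hle : ∀ U ∈ F, U ≤ sSup F := fun U hU => le_sSup hU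
  have hinvS : ∀ j, j ≠ s → ∀ x ∈ sSup F, a s j x ∈ sSup F := by
    intro j hj
    have : sSup F ≤ (sSup F).comap (a s j).toLinearMap := by
      refine sSup_le fun U hU x hx => ?_
      exact hle U hU (hU.1 j hj x hx)
    exact fun x hx => this hx
  have hinvK : ∀ k l, s ≠ k → s ≠ l → k ≠ l → ∀ x ∈ sSup F, a k l x ∈ sSup F := by
    intro k l hk hl hkl
    have : sSup F ≤ (sSup F).comap ((a k l)⁻¹ : V ≃ₗ[ℂ] V).toLinearMap := by
      refine sSup_le fun U hU x hx => ?_
      have hU' : U.map ((a k l)⁻¹ : V ≃ₗ[ℂ] V).toLinearMap ∈ F := by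
        refine ⟨hU.1.map h hk hl hkl, ?_⟩
        rw [← hU.2]
        exact LinearEquiv.finrank_map_eq ((a k l)⁻¹ : V ≃ₗ[ℂ] V) U
      exact hle _ hU' ⟨x, hx, rfl⟩
    have h2 := inv_mem_of_mem ((a k l)⁻¹ : V ≃ₗ[ℂ] V) (sSup F) (fun x hx => this hx)
    rwa [inv_inv] at h2
  have htop : sSup F = ⊤ := by
    rcases hirr (sSup F) (by
      intro i j hij x hx
      by_cases h1 : i = s
      · subst h1
        exact hinvS j hij.symm x hx
      by_cases h2 : j = s
      · subst h2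
        rw [h.symm]
        exact hinvS i hij x hx
      · exact hinvK i j (Ne.symm h1) (Ne.symm h2) hij x hx) with h1 | h1
    · exfalso
      apply hW1
      rw [eq_bot_iff, ← h1]
      exact hle W1 ⟨hI1, hd1⟩
    · exact h1
  -- the dimension is divisible by `d`
  have hdvd : d ∣ finrank ℂ V := by
    obtain ⟨X, hX, hmax⟩ := WellFounded.has_min (r := ((· > ·) : Submodule ℂ V → Submodule ℂ V →
        Prop)) wellFounded_gt {X | InvS a s X ∧ d ∣ finrank ℂ X}
        ⟨⊥, fun j _ x hx => by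
          rw [Submodule.mem_bot] at hx ⊢
          rw [hx, map_zero], by simp⟩
    by_cases hXtop : X = ⊤
    · have := hX.2
      rwa [hXtop, finrank_top] at this
    · exfalso
      obtain ⟨U, hU, hUX⟩ : ∃ U ∈ F, ¬ U ≤ X := by
        by_contra hc
        push Not at hc
        apply hXtop
        rw [eq_top_iff, ← htop]
        exact sSup_le hc
      have hbot : U ⊓ X = ⊥ := by
        by_contra hne
        have h1 := hmin _ hne (hU.1.inf hX.1)
        have h2 : U ⊓ X = U := Submodule.eq_of_le_of_finrank_le inf_le_left (by rw [hU.2]; exact h1)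
        exact hUX (inf_eq_left.1 h2)
      have hsum := Submodule.finrank_sup_add_finrank_inf_eq U X
      rw [hbot, finrank_bot, add_zero, hU.2] at hsum
      refine hmax (U ⊔ X) ⟨hU.1.sup hX.1, ?_⟩ ?_
      · rw [hsum]
        exact (Nat.dvd_add_right (dvd_refl d)).2 hX.2
      · refine lt_of_le_of_ne le_sup_right fun heq => hUX ?_
        rw [heq]
        exact le_sup_left
  have hd1' : d = 1 := by
    rcases (Nat.dvd_prime hp).1 hdvd with h1 | h1
    · exact h1
    · omega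
  -- the generators on the strand commute
  have hcomm : ∀ j k, j ≠ s → k ≠ s → Commute (a s j) (a s k) := by
    intro j k hj hk
    have : sSup F ≤ LinearMap.ker ((a s j * a s k : V ≃ₗ[ℂ] V).toLinearMap -
        (a s k * a s j : V ≃ₗ[ℂ] V).toLinearMap) := by
      refine sSup_le fun U hU x hx => ?_
      have hfr := hU.2
      rw [hd1'] at hfr
      by_cases hx0 : x = 0
      · rw [hx0]; exact Submodule.zero_mem _
      have hsc : ∀ y ∈ U, ∃ c : ℂ, y = c • x := by
        intro y hy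
        obtain ⟨c, hc⟩ := (finrank_eq_one_iff_of_nonzero' (⟨x, hx⟩ : U)
          (fun h' => hx0 (congrArg Subtype.val h'))).1 hfr ⟨y, hy⟩
        exact ⟨c, (congrArg Subtype.val hc).symm⟩
      obtain ⟨c, hc⟩ := hsc _ (hU.1 j hj x hx)
      obtain ⟨c', hc'⟩ := hsc _ (hU.1 k hk x hx)
      rw [LinearMap.mem_ker, LinearMap.sub_apply, sub_eq_zero]
      show a s j (a s k x) = a s k (a s j x)
      rw [hc, hc', map_smul, map_smul, hc, hc', smul_comm]
    rw [htop, top_le_iff, LinearMap.ker_eq_top, sub_eq_zero] at this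
    exact LinearEquiv.toLinearMap_injective this
  -- so they are scalars
  obtain ⟨j, hj, hj'⟩ := hs
  apply hj'
  obtain ⟨c, hc⟩ := schur (S := {f | ∃ k l, k ≠ l ∧ f = a k l}) (by
      intro U hU
      exact hirr U fun k l hkl => hU _ ⟨k, l, hkl, rfl⟩) (a s j) (by
    rintro f ⟨k, l, hkl, rfl⟩
    by_cases h1 : k = s
    · subst h1
      exact hcomm j l hj hkl.symm
    by_cases h2 : l = s
    · subst h2
      rw [h.symm k l]
      exact hcomm j k hj hkl
    · exact ((h.conj (Ne.symm h1) (Ne.symm h2) hkl hj).2 (hcomm k l h1 h2)).symm)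
  exact cen_of_scalar hc

theorem schurP_of_prime [FiniteDimensional ℂ V] (h : PB a) (hirr : IrrF a)
    (hp : (finrank ℂ V).Prime) : SchurP a := by
  intro s hs T hT
  have : Nontrivial V := Module.nontrivial_of_finrank_pos (R := ℂ) hp.pos
  obtain ⟨c, hc⟩ := schur (S := {f | ∃ j, j ≠ s ∧ f = a s j}) (by
    intro U hU
    exact irr_strand h hirr hp hs U fun j hj => hU _ ⟨j, hj, rfl⟩) T (by
    rintro f ⟨j, hj, rfl⟩
    exact hT j hj)
  exact cen_of_scalar hc

end Pool.Agent.PB3
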