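import Mathlib

/-!
# Endomorphisms of a three dimensional space

Either some `M - c` has rank at most one, or every two endomorphisms which commute with `M` commute
with each other.
-/

set_option autoImplicit false

namespace Pool.Agent.PB3

open Polynomial Module

variable {V : Type*} [AddCommGroup V] [Module ℂ V]

/-- a scalar endomorphism -/
def IsSc (T : Module.End ℂ V) : Prop := ∃ c : ℂ, T = c • (1 : Module.End ℂ V)

/-- an endomorphism with a large eigenspace: a scalar plus an endomorphism of rank at most one -/
def Lau (T : Module.End ℂ V) : Prop :=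
  ∃ c : ℂ, finrank ℂ (LinearMap.range (T - c • (1 : Module.End ℂ V))) ≤ 1

/-- every two endomorphisms which commute with `T` commute -/
def Reg (T : Module.End ℂ V) : Prop :=
  ∀ X Y : Module.End ℂ V, Commute T X → Commute T Y → Commute X Y

theorem IsSc.commute {T : Module.End ℂ V} (h : IsSc T) (X : Module.End ℂ V) : Commute T X := by
  obtain ⟨c, rfl⟩ := h
  exact (Commute.one_left X).smul_left c

theorem IsSc.lau {T : Module.End ℂ V} (h : IsSc T) : Lau T := by
  obtain ⟨c, rfl⟩ := h
  refine ⟨c, ?_⟩
  rw [sub_self, LinearMap.range_zero, finrank_bot]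
  norm_num

/-- a vector whose annihilator is generated by the minimal polynomial -/
private theorem Cyc_exists [FiniteDimensional ℂ V] [Nontrivial V] (M : Module.End ℂ V) :
    ∃ v : V, ∀ q : ℂ[X], q ≠ 0 → q.natDegree < (minpoly ℂ M).natDegree → aeval M q v ≠ 0 := by
  classical
  set p := minpoly ℂ M with hp
  have hint : IsIntegral ℂ M := Algebra.IsIntegral.isIntegral M
  have hp0 : p ≠ 0 := minpoly.ne_zero hint
  have hpm : aeval M p = 0 := minpoly.aeval ℂ M
  set s : Finset (Submodule ℂ V) :=
    p.roots.toFinset.image (fun c => LinearMap.ker (aeval M (p /ₘ (X - C c)))) with hs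
  have htop : (⊤ : Submodule ℂ V) ∉ s := by
    intro h
    rw [hs, Finset.mem_image] at h
    obtain ⟨c, hc, h⟩ := h
    rw [Multiset.mem_toFinset, mem_roots hp0] at hc
    have h1 : aeval M (p /ₘ (X - C c)) = 0 := LinearMap.ker_eq_top.1 h
    have h2 : (X - C c) * (p /ₘ (X - C c)) = p := mul_divByMonic_eq_iff_isRoot.2 hc
    have h3 : p /ₘ (X - C c) ≠ 0 := by
      intro h4
      rw [h4, mul_zero] at h2
      exact hp0 h2.symm
    have h4 := minpoly.degree_le_of_ne_zero ℂ M h3 h1
    have h5 : p.degree = (X - C c).degree + (p /ₘ (X - C c)).degree := by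
      rw [← degree_mul, h2]
    rw [← hp, h5, degree_X_sub_C, degree_eq_natDegree h3] at h4
    have h6 : (1 : ℕ) + (p /ₘ (X - C c)).natDegree ≤ (p /ₘ (X - C c)).natDegree := by
      exact_mod_cast h4
    omega
  have h1 := Subspace.biUnion_ne_univ_of_top_notMem htop
  obtain ⟨v, hv⟩ := (Set.ne_univ_iff_exists_notMem _).1 h1
  refine ⟨v, fun q hq hdeg h0 => hv ?_⟩
  set g := EuclideanDomain.gcd q p with hg
  have hgq : g ∣ q := EuclideanDomain.gcd_dvd_left q p
  have hgp : g ∣ p := EuclideanDomain.gcd_dvd_right q p
  have hgv : aeval M g v = 0 := by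
    have h2 := EuclideanDomain.gcd_eq_gcd_ab q p
    rw [hg, h2, mul_comm q, map_add, map_mul, map_mul, hpm, zero_mul, add_zero]
    simp only [Module.End.mul_apply, h0, map_zero]
  obtain ⟨h, hh⟩ := hgp
  have hg0 : g ≠ 0 := by
    rintro h2
    rw [h2, zero_mul] at hh
    exact hp0 hh
  have hh0 : h ≠ 0 := by
    rintro h2
    rw [h2, mul_zero] at hh
    exact hp0 hh
  have hdegh : h.natDegree ≠ 0 := by
    intro h2
    have h3 : p.natDegree = g.natDegree + h.natDegree := by
      rw [hh, natDegree_mul hg0 hh0]
    have h4 := natDegree_le_of_dvd hgq hq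
    omega
  obtain ⟨c, hc⟩ := Complex.exists_root (f := h) (by
    rw [degree_eq_natDegree hh0]
    exact_mod_cast Nat.pos_of_ne_zero hdegh)
  have hcp : p.IsRoot c := by
    rw [IsRoot, hh, eval_mul, hc.eq_zero, mul_zero]
  have h2 : (X - C c) * (p /ₘ (X - C c)) = p := mul_divByMonic_eq_iff_isRoot.2 hcp
  obtain ⟨k, hk⟩ := dvd_iff_isRoot.2 hc
  have h3 : p /ₘ (X - C c) = g * k := by
    apply mul_left_cancel₀ (X_sub_C_ne_zero c)
    rw [h2, hh, hk]
    ring
  refine Set.mem_iUnion₂.2 ⟨LinearMap.ker (aeval M (p /ₘ (X - C c))), ?_, ?_⟩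
  · rw [hs, Finset.mem_image]
    exact ⟨c, by rw [Multiset.mem_toFinset, mem_roots hp0]; exact hcp, rfl⟩
  · show aeval M (p /ₘ (X - C c)) v = 0
    rw [h3, mul_comm, map_mul, Module.End.mul_apply, hgv, map_zero]

/-- if the degree of the minimal polynomial is the dimension the centraliser is commutative -/
theorem Cyc_reg [FiniteDimensional ℂ V] [Nontrivial V] (M : Module.End ℂ V)
    (hdeg : finrank ℂ V ≤ (minpoly ℂ M).natDegree) : Reg M := by
  classical
  obtain ⟨v, hv⟩ := Cyc_exists M
  set n := finrank ℂ V with hn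
  -- every vector is `q (M) v`
  have hli : LinearIndependent ℂ (fun i : Fin n => (M ^ (i : ℕ)) v) := by
    rw [Fintype.linearIndependent_iff]
    intro g hg
    by_contra hne
    push Not at hne
    obtain ⟨i0, hi0⟩ := hne
    set q : ℂ[X] := ∑ i : Fin n, C (g i) * X ^ (i : ℕ) with hq
    have hcoef : q.coeff (i0 : ℕ) = g i0 := by
      rw [hq, finset_sum_coeff, Finset.sum_eq_single i0]
      · simp
      · intro b _ hb
        rw [coeff_C_mul, coeff_X_pow, if_neg, mul_zero]
        intro h
        exact hb (Fin.ext h.symm)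
      · intro h
        exact absurd (Finset.mem_univ _) h
    have hq0 : q ≠ 0 := by
      intro h
      rw [h, coeff_zero] at hcoef
      exact hi0 hcoef.symm
    have hqd : q.natDegree < (minpoly ℂ M).natDegree := by
      have h1 : q.degree < n := by
        rw [hq]
        refine lt_of_le_of_lt (degree_sum_le _ _) ?_
        rw [Finset.sup_lt_iff (by
          rw [bot_lt_iff_ne_bot]
          exact WithBot.coe_ne_bot)]
        intro i _
        refine lt_of_le_of_lt (degree_C_mul_X_pow_le _ _) ?_
        exact_mod_cast i.2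
      have h2 : q.natDegree < n := (natDegree_lt_iff_degree_lt hq0).2 h1
      omega
    apply hv q hq0 hqd
    rw [hq, map_sum, LinearMap.sum_apply]
    simp only [map_mul, aeval_C, map_pow, aeval_X, Module.End.mul_apply]
    rw [← hg]
    refine Finset.sum_congr rfl fun i _ => ?_
    simp
  have hspan : ∀ w : V, ∃ q : ℂ[X], w = aeval M q v := by
    intro w
    have h1 := hli.span_eq_top_of_card_eq_finrank' (by rw [Fintype.card_fin])
    have h2 : w ∈ Submodule.span ℂ (Set.range (fun i : Fin n => (M ^ (i : ℕ)) v)) := by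
      rw [h1]
      exact Submodule.mem_top
    rw [Submodule.mem_span_range_iff_exists_fun] at h2
    obtain ⟨c, hc⟩ := h2
    refine ⟨∑ i : Fin n, C (c i) * X ^ (i : ℕ), ?_⟩
    rw [map_sum, LinearMap.sum_apply, ← hc]
    refine Finset.sum_congr rfl fun i _ => ?_
    simp [Module.End.mul_apply]
  have hcom : ∀ X : Module.End ℂ V, Commute M X → ∃ q : ℂ[X], X = aeval M q := by
    intro X hX
    obtain ⟨q, hq⟩ := hspan (X v)
    refine ⟨q, ?_⟩
    ext w
    obtain ⟨r, hr⟩ := hspan w
    have h1 : Commute (aeval M r) X := by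
      have : Commute X (aeval M r) := by
        have h2 : ∀ r : ℂ[X], Commute X (aeval M r) := by
          intro r
          induction r using Polynomial.induction_on' with
          | add p q hp hq => rw [map_add]; exact hp.add_right hq
          | monomial n a =>
            rw [aeval_monomial]
            have h5 : Commute X (algebraMap ℂ (Module.End ℂ V) a) := (Algebra.commutes a X).symm
            exact h5.mul_right (hX.symm.pow_right n)
        exact h2 r
      exact this.symm
    have h2 : X w = aeval M r (X v) := by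
      rw [hr, ← Module.End.mul_apply, ← h1.eq, Module.End.mul_apply]
    rw [h2, hq, ← Module.End.mul_apply, ← map_mul, mul_comm, map_mul, Module.End.mul_apply, ← hr]
  intro X Y hX hY
  obtain ⟨q, rfl⟩ := hcom X hX
  obtain ⟨r, rfl⟩ := hcom Y hY
  rw [commute_iff_eq, ← map_mul, mul_comm, map_mul]

/-- **Dichotomy in dimension three.** -/
theorem lau_or_reg (h3 : finrank ℂ V = 3) (M : Module.End ℂ V) : Lau M ∨ Reg M := by
  classical
  have : FiniteDimensional ℂ V := FiniteDimensional.of_finrank_pos (by omega)
  have : Nontrivial V := Module.nontrivial_of_finrank_pos (R := ℂ) (by omega)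
  by_cases hdeg : finrank ℂ V ≤ (minpoly ℂ M).natDegree
  · exact Or.inr (Cyc_reg M hdeg)
  · left
    rw [h3] at hdeg
    push Not at hdeg
    set p := minpoly ℂ M with hp
    have hint : IsIntegral ℂ M := Algebra.IsIntegral.isIntegral M
    have hp0 : p ≠ 0 := minpoly.ne_zero hint
    have hpm : aeval M p = 0 := minpoly.aeval ℂ M
    have hmonic : p.Monic := minpoly.monic hint
    have hpos : 0 < p.natDegree := minpoly.natDegree_pos hint
    -- two factors
    obtain ⟨a, b, hab⟩ : ∃ a b : ℂ, (M - a • (1 : Module.End ℂ V)) *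
        (M - b • (1 : Module.End ℂ V)) = 0 := by
      obtain ⟨a, ha⟩ := Complex.exists_root (f := p) (by
        rw [degree_eq_natDegree hp0]
        exact_mod_cast hpos)
      have h2 : (X - C a) * (p /ₘ (X - C a)) = p := mul_divByMonic_eq_iff_isRoot.2 ha
      have hX : ∀ c : ℂ, aeval M (X - C c) = M - c • (1 : Module.End ℂ V) := by
        intro c
        rw [map_sub, aeval_X, aeval_C, Algebra.algebraMap_eq_smul_one]
      set r := p /ₘ (X - C a) with hr
      have hr0 : r ≠ 0 := by
        intro h
        rw [h, mul_zero] at h2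
        exact hp0 h2.symm
      have hrd : r.natDegree + 1 = p.natDegree := by
        rw [← h2, natDegree_mul (X_sub_C_ne_zero a) hr0, natDegree_X_sub_C]
        omega
      by_cases hr1 : r.natDegree = 0
      · obtain ⟨k, hk⟩ := natDegree_eq_zero.1 hr1
        have hk0 : k ≠ 0 := by
          rintro rfl
          rw [map_zero] at hk
          exact hr0 hk.symm
        refine ⟨a, a, ?_⟩
        have h3 : aeval M ((X - C a) * C k) = 0 := by rw [hk, h2, hpm]
        rw [map_mul, hX, aeval_C, Algebra.algebraMap_eq_smul_one, mul_smul_comm, mul_one] at h3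
        rw [(smul_eq_zero.1 h3).resolve_left hk0, mul_zero]
      · obtain ⟨b, hb⟩ := Complex.exists_root (f := r) (by
          rw [degree_eq_natDegree hr0]
          exact_mod_cast Nat.pos_of_ne_zero hr1)
        have h3 : (X - C b) * (r /ₘ (X - C b)) = r := mul_divByMonic_eq_iff_isRoot.2 hb
        set t := r /ₘ (X - C b) with ht
        have ht0 : t ≠ 0 := by
          intro h
          rw [h, mul_zero] at h3
          exact hr0 h3.symm
        have htd : t.natDegree = 0 := by
          have : r.natDegree = 1 + t.natDegree := by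
            rw [← h3, natDegree_mul (X_sub_C_ne_zero b) ht0, natDegree_X_sub_C]
          omega
        obtain ⟨k, hk⟩ := natDegree_eq_zero.1 htd
        have hk0 : k ≠ 0 := by
          rintro rfl
          rw [map_zero] at hk
          exact ht0 hk.symm
        refine ⟨a, b, ?_⟩
        have h4 : aeval M ((X - C a) * ((X - C b) * C k)) = 0 := by rw [hk, h3, h2, hpm]
        rw [map_mul, map_mul, hX, hX, aeval_C, Algebra.algebraMap_eq_smul_one, mul_smul_comm,
          mul_one, mul_smul_comm] at h4
        exact (smul_eq_zero.1 h4).resolve_left hk0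
    have hle : LinearMap.range (M - b • (1 : Module.End ℂ V)) ≤
        LinearMap.ker (M - a • (1 : Module.End ℂ V)) := by
      rintro x ⟨y, rfl⟩
      rw [LinearMap.mem_ker, ← Module.End.mul_apply, hab, LinearMap.zero_apply]
    have h1 := Submodule.finrank_mono hle
    have h2 := LinearMap.finrank_range_add_finrank_ker (M - a • (1 : Module.End ℂ V))
    rw [h3] at h2
    by_cases h4 : finrank ℂ (LinearMap.range (M - a • (1 : Module.End ℂ V))) ≤ 1
    · exact ⟨a, h4⟩
    · exact ⟨b, by omega⟩

end Pool.Agent.PB3
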