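import Pool.Agent.PB3.Clif
import Pool.Agent.PB3.Quot
import Pool.Agent.PB3.Cyc
import Pool.Agent.Conf14.Fin2

/-!
# Representations which factor through the line minus three points
-/

set_option autoImplicit false

namespace Pool.Agent.PB3

open Pool.Agent.Conf14
open FreeGroup (of lift lift_apply_of)

variable {n : ℕ}

section
variable {Γ : Type*} [Group Γ]

/-- two homomorphisms which agree on the generators up to central elements -/
theorem factor_cen (R T : PureBraid n →* Γ)
    (h : ∀ i j (hij : i < j), Cen (R (A i j hij) * (T (A i j hij))⁻¹)) (g : PureBraid n) :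
    Cen (R g * (T g)⁻¹) := by
  let S : Subgroup (PureBraid n) :=
    { carrier := {g | Cen (R g * (T g)⁻¹)}
      one_mem' := by
        show Cen (R 1 * (T 1)⁻¹)
        rw [map_one, map_one, inv_one, mul_one]
        exact Cen.one
      mul_mem' := by
        intro x y hx hy
        have hx' : Cen (R x * (T x)⁻¹) := hx
        have hy' : Cen (R y * (T y)⁻¹) := hy
        show Cen (R (x * y) * (T (x * y))⁻¹)
        have e : R (x * y) * (T (x * y))⁻¹ = (R x * (T x)⁻¹) *
            (T x * (R y * (T y)⁻¹) * (T x)⁻¹) := by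
          rw [map_mul, map_mul]
          group
        rw [e]
        exact hx'.mul (hy'.conj (T x))
      inv_mem' := by
        intro x hx
        have hx' : Cen (R x * (T x)⁻¹) := hx
        show Cen (R x⁻¹ * (T x⁻¹)⁻¹)
        have e : R x⁻¹ * (T x⁻¹)⁻¹ = (T x)⁻¹ * (R x * (T x)⁻¹)⁻¹ * (T x)⁻¹⁻¹ := by
          rw [map_inv, map_inv]
          group
        rw [e]
        exact hx'.inv.conj _ }
  have hS : S = ⊤ := pb_top S h
  have : g ∈ S := hS ▸ Subgroup.mem_top g
  exact this

/-- `q` is a forgetful map or a cross ratio map -/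
def ToLine (q : PureBraid n →* FreeGroup (Fin 2)) : Prop := IsForget q ∨ IsCross q

theorem lift_zero (x y : Γ) : lift ![x, y] (of (0 : Fin 2)) = x := by
  rw [lift_apply_of]; rfl

theorem lift_one (x y : Γ) : lift ![x, y] (of (1 : Fin 2)) = y := by
  rw [lift_apply_of]; rfl

/-- families from three strands or the cross ratio of four strands factor -/
theorem exists_factor (R : PureBraid n →* Γ)
    (h : Three (fun i j => R (B i j)) ∨ Cross (fun i j => R (B i j))) :
    ∃ (q : PureBraid n →* FreeGroup (Fin 2)) (τ : FreeGroup (Fin 2) →* Γ), ToLine q ∧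
      (∃ s t : Fin n, τ (of 0) = R (B s t)) ∧ (∃ s t : Fin n, τ (of 1) = R (B s t)) ∧
      ∀ g, Cen (R g * (τ (q g))⁻¹) := by
  rcases h with ⟨i, j, k, hij, hjk, hZ, ho⟩ | ⟨b, c, d, e, hbc, hcd, hde, ⟨k1, k2, k3, k4⟩, ho⟩
  · obtain ⟨q, q1, q2, q3, q4⟩ := exists_forget hij hjk
    refine ⟨q, lift ![R (B i j), R (B j k)], Or.inl ⟨i, j, k, hij, hjk, q1, q2, q3, q4⟩,
      ⟨i, j, lift_zero _ _⟩, ⟨j, k, lift_one _ _⟩, ?_⟩
    apply factor_cen R ((lift ![R (B i j), R (B j k)]).comp q)
    intro s t hst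
    rw [MonoidHom.comp_apply]
    by_cases hs : (s = i ∨ s = j ∨ s = k) ∧ (t = i ∨ t = j ∨ t = k)
    · obtain ⟨hs, ht⟩ := hs
      rcases hs with rfl | rfl | rfl <;> rcases ht with rfl | rfl | rfl
      · exact absurd hst (lt_irrefl _)
      · rw [q1, lift_zero, B_lt hst, mul_inv_cancel]
        exact Cen.one
      · rw [q3, map_inv, map_mul, lift_zero, lift_one, inv_inv, ← B_lt hst]
        have h1 : Cen (R (B s j) * (R (B s t) * R (B j t))) := by rw [← mul_assoc]; exact hZ
        have h2 := h1.cyc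
        rwa [mul_assoc] at h2
      · exact absurd hst (lt_asymm hij)
      · exact absurd hst (lt_irrefl _)
      · rw [q2, lift_one, B_lt hst, mul_inv_cancel]
        exact Cen.one
      · exact absurd hst (lt_asymm (hij.trans hjk))
      · exact absurd hst (lt_asymm hjk)
      · exact absurd hst (lt_irrefl _)
    · rw [q4 s t hst hs, map_one, inv_one, mul_one, ← B_lt hst]
      exact ho s t hst.ne hs
  · obtain ⟨q, q1, q2, q3, q4, q5, q6, q7⟩ := exists_cross hbc hcd hde
    refine ⟨q, lift ![R (B b c), R (B c d)],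
      Or.inr ⟨b, c, d, e, hbc, hcd, hde, q1, q2, q3, q4, q5, q6, q7⟩,
      ⟨b, c, lift_zero _ _⟩, ⟨c, d, lift_one _ _⟩, ?_⟩
    apply factor_cen R ((lift ![R (B b c), R (B c d)]).comp q)
    intro s t hst
    rw [MonoidHom.comp_apply]
    by_cases hs : (s = b ∨ s = c ∨ s = d ∨ s = e) ∧ (t = b ∨ t = c ∨ t = d ∨ t = e)
    · obtain ⟨hs, ht⟩ := hs
      rcases hs with rfl | rfl | rfl | rfl <;> rcases ht with rfl | rfl | rfl | rfl
      · exact absurd hst (lt_irrefl _)
      · rw [q1, lift_zero, B_lt hst, mul_inv_cancel]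
        exact Cen.one
      · rw [q5, map_inv, map_mul, lift_zero, lift_one, inv_inv, ← B_lt hst]
        exact k3
      · rw [q4, lift_one, ← B_lt hst]
        exact k2
      · exact absurd hst (lt_asymm hbc)
      · exact absurd hst (lt_irrefl _)
      · rw [q3, lift_one, B_lt hst, mul_inv_cancel]
        exact Cen.one
      · rw [q6, map_inv, map_mul, lift_zero, lift_one, inv_inv, ← B_lt hst]
        exact k4
      · exact absurd hst (lt_asymm (hbc.trans hcd))
      · exact absurd hst (lt_asymm hcd)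
      · exact absurd hst (lt_irrefl _)
      · rw [q2, lift_zero, ← B_lt hst]
        exact k1
      · exact absurd hst (lt_asymm ((hbc.trans hcd).trans hde))
      · exact absurd hst (lt_asymm (hcd.trans hde))
      · exact absurd hst (lt_asymm hde)
      · exact absurd hst (lt_irrefl _)
    · rw [q7 s t hst hs, map_one, inv_one, mul_one, ← B_lt hst]
      exact ho s t hst.ne hs

end

variable {V : Type*} [AddCommGroup V] [Module ℂ V]

/-- the family of a representation -/
noncomputable def fam (ρ : Representation ℂ (PureBraid n) V) (i j : Fin n) : V ≃ₗ[ℂ] V :=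
  toEq ρ (B i j)

theorem fam_pb (ρ : Representation ℂ (PureBraid n) V) : PB (fam ρ) := pbB.map (toEq ρ)

theorem fam_lt (ρ : Representation ℂ (PureBraid n) V) {i j : Fin n} (h : i < j) (x : V) :
    fam ρ i j x = ρ (A i j h) x := by
  rw [fam, B_lt h]
  rfl

theorem fam_irr [FiniteDimensional ℂ V] (ρ : Representation ℂ (PureBraid n) V)
    [ρ.IsIrreducible] : IrrF (fam ρ) := by
  intro W hW
  apply irr_sub ρ
  let S : Subgroup (PureBraid n) :=
    { carrier := {g | ∀ x ∈ W, toEq ρ g x ∈ W}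
      one_mem' := fun x hx => by rw [map_one]; exact hx
      mul_mem' := by
        intro g g' hg hg' x hx
        rw [map_mul]
        exact hg _ (hg' x hx)
      inv_mem' := by
        intro g hg x hx
        rw [map_inv]
        exact inv_mem_of_mem (toEq ρ g) W hg x hx }
  have hS : S = ⊤ := by
    apply pb_top
    intro i j hij x hx
    rw [← B_lt hij]
    exact hW i j hij.ne x hx
  intro g x hx
  have hg : g ∈ S := hS ▸ Subgroup.mem_top g
  exact hg x hx

/-- central automorphisms are scalars -/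
theorem Cen.scalar [FiniteDimensional ℂ V] [Nontrivial V]
    (ρ : Representation ℂ (PureBraid n) V) [ρ.IsIrreducible] {T : V ≃ₗ[ℂ] V} (hT : Cen T) :
    ∃ z : ℂˣ, ∀ x, T x = (z : ℂ) • x := by
  obtain ⟨c, hc⟩ := schur (S := {f | ∃ i j, i ≠ j ∧ f = fam ρ i j}) (by
    intro U hU
    exact fam_irr ρ U fun i j hij => hU _ ⟨i, j, hij, rfl⟩) T (fun f _ => hT f)
  have hc0 : c ≠ 0 := by
    rintro rfl
    obtain ⟨u, hu⟩ := exists_ne (0 : V)
    apply hu
    apply T.injective
    rw [hc, zero_smul, map_zero]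
  exact ⟨Units.mk0 c hc0, hc⟩

/-- central quotients are characters -/
theorem exists_chi [FiniteDimensional ℂ V] [Nontrivial V]
    (ρ : Representation ℂ (PureBraid n) V) [ρ.IsIrreducible] (T : PureBraid n →* (V ≃ₗ[ℂ] V))
    (h : ∀ g, Cen (toEq ρ g * (T g)⁻¹)) :
    ∃ χ : PureBraid n →* ℂˣ, ∀ g x, ρ g x = (χ g : ℂ) • T g x := by
  have hex : ∀ g, ∃ z : ℂˣ, ∀ x, ρ g x = (z : ℂ) • T g x := by
    intro g
    obtain ⟨z, hz⟩ := (h g).scalar ρ
    refine ⟨z, fun x => ?_⟩
    have h1 := hz (T g x)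
    have h2 : (toEq ρ g * (T g)⁻¹) (T g x) = ρ g x := by
      have : (toEq ρ g * (T g)⁻¹) * T g = toEq ρ g := by group
      exact LinearEquiv.congr_fun this x
    rw [← h1, h2]
  choose χ hχ using hex
  obtain ⟨u, hu⟩ := exists_ne (0 : V)
  have huniq : ∀ (g : PureBraid n) (z y : ℂˣ), ρ g u = (z : ℂ) • T g u →
      ρ g u = (y : ℂ) • T g u → z = y := by
    intro g z y hz hy
    have h2 : T g u ≠ 0 := by
      intro h0
      apply hu
      apply (T g).injective
      rw [h0, map_zero]
    have h3 : (z : ℂ) • T g u = (y : ℂ) • T g u := by rw [← hz, ← hy]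
    exact Units.ext (smul_left_injective ℂ h2 h3)
  refine ⟨{ toFun := χ, map_one' := ?_, map_mul' := ?_ }, hχ⟩
  · apply huniq 1 _ _ (hχ 1 u)
    rw [map_one, map_one, Units.val_one, one_smul]
    rfl
  · intro g k
    apply huniq (g * k) _ _ (hχ _ u)
    have h1 : ρ (g * k) u = ρ g (ρ k u) := by rw [map_mul]; rfl
    have h2 : T (g * k) u = T g (T k u) := by rw [map_mul]; rfl
    rw [h1, h2, hχ g, hχ k, map_smul, smul_smul, Units.val_mul]

/-- the determinant of an automorphism whose eigenvalues are roots of unity -/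
theorem det_fin [FiniteDimensional ℂ V] (f : V ≃ₗ[ℂ] V)
    (h : ∀ μ : ℂ, Module.End.HasEigenvalue (f : V →ₗ[ℂ] V) μ → ∃ k : ℕ, 0 < k ∧ μ ^ k = 1) :
    IsOfFinOrder (LinearEquiv.det f) := by
  classical
  have hs : (LinearMap.charpoly (f : V →ₗ[ℂ] V)).Splits := IsAlgClosed.splits _
  have h1 := Module.End.det_eq_prod_roots_charpoly_of_splits hs
  have h2 : ∀ s : Multiset ℂ, (∀ μ ∈ s, ∃ k : ℕ, 0 < k ∧ μ ^ k = 1) →
      ∃ k : ℕ, 0 < k ∧ s.prod ^ k = 1 := by
    intro s
    induction s using Multiset.induction_on with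
    | empty => intro _; exact ⟨1, one_pos, by simp⟩
    | cons a s ih =>
      intro hs
      obtain ⟨k, hk, h3⟩ := hs a (Multiset.mem_cons_self a s)
      obtain ⟨l, hl, h4⟩ := ih fun μ hμ => hs μ (Multiset.mem_cons_of_mem hμ)
      refine ⟨k * l, Nat.mul_pos hk hl, ?_⟩
      rw [Multiset.prod_cons, mul_pow, pow_mul, h3, one_pow, mul_comm k l, pow_mul, h4, one_pow,
        one_mul]
  obtain ⟨k, hk, h3⟩ := h2 (LinearMap.charpoly (f : V →ₗ[ℂ] V)).roots (by
    intro μ hμ
    apply h μ
    rw [Module.End.hasEigenvalue_iff_isRoot_charpoly]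
    exact Polynomial.isRoot_of_mem_roots hμ)
  rw [isOfFinOrder_iff_pow_eq_one]
  refine ⟨k, hk, Units.ext ?_⟩
  rw [Units.val_pow_eq_pow_val, LinearEquiv.coe_det, h1, h3, Units.val_one]

/-- the scalars of the factorisation have finite order -/
theorem chi_fin [FiniteDimensional ℂ V] [Nontrivial V] (ρ : Representation ℂ (PureBraid n) V)
    (hroot : LocalRoots ρ) (q : PureBraid n →* FreeGroup (Fin 2))
    (τ : FreeGroup (Fin 2) →* (V ≃ₗ[ℂ] V)) (χ : PureBraid n →* ℂˣ)
    (h0 : ∃ s t : Fin n, τ (of 0) = fam ρ s t) (h1 : ∃ s t : Fin n, τ (of 1) = fam ρ s t)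
    (h : ∀ g x, ρ g x = (χ g : ℂ) • τ (q g) x) :
    ∃ N : ℕ, 0 < N ∧ ∀ g, χ g ^ N = 1 := by
  classical
  have hB : ∀ s t : Fin n, IsOfFinOrder (LinearEquiv.det (fam ρ s t)) := by
    intro s t
    rcases lt_trichotomy s t with hst | hst | hst
    · apply det_fin
      intro μ hμ
      apply hroot s t hst μ
      have : ((fam ρ s t : V ≃ₗ[ℂ] V) : V →ₗ[ℂ] V) = ρ (A s t hst) := by
        ext x; exact fam_lt ρ hst x
      rwa [this] at hμ
    · have : fam ρ s t = 1 := by
        rw [fam, B, dif_neg (by rw [hst]; exact lt_irrefl _),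
          dif_neg (by rw [hst]; exact lt_irrefl _), map_one]
      rw [this, map_one]
      exact IsOfFinOrder.one
    · apply det_fin
      intro μ hμ
      apply hroot t s hst μ
      have : ((fam ρ s t : V ≃ₗ[ℂ] V) : V →ₗ[ℂ] V) = ρ (A t s hst) := by
        ext x
        rw [← fam_lt ρ hst x]
        show fam ρ s t x = fam ρ t s x
        rw [(fam_pb ρ).symm s t]
      rwa [this] at hμ
  have hw : ∀ w : FreeGroup (Fin 2), IsOfFinOrder (LinearEquiv.det (τ w)) := by
    have hgen : ∀ l : Fin 2, IsOfFinOrder (LinearEquiv.det (τ (of l))) := by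
      intro l
      fin_cases l
      · obtain ⟨s, t, e⟩ := h0
        show IsOfFinOrder (LinearEquiv.det (τ (of 0)))
        rw [e]; exact hB s t
      · obtain ⟨s, t, e⟩ := h1
        show IsOfFinOrder (LinearEquiv.det (τ (of 1)))
        rw [e]; exact hB s t
    intro w
    induction w using FreeGroup.induction_on with
    | C1 => rw [map_one, map_one]; exact IsOfFinOrder.one
    | of l => exact hgen l
    | inv_of l ih => rw [map_inv, map_inv]; exact ih.inv
    | mul x y hx hy => rw [map_mul, map_mul]; exact hx.mul hy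
  have hχ : ∀ s t (hst : s < t), IsOfFinOrder (χ (A s t hst)) := by
    intro s t hst
    have e : fam ρ s t = sc (χ (A s t hst)) * τ (q (A s t hst)) := by
      ext x
      rw [fam_lt ρ hst, h]
      rfl
    have e2 : LinearEquiv.det (fam ρ s t) = (χ (A s t hst)) ^ (Module.finrank ℂ V) *
        LinearEquiv.det (τ (q (A s t hst))) := by
      rw [e, map_mul]
      congr 1
      apply Units.ext
      rw [LinearEquiv.coe_det, Units.val_pow_eq_pow_val]
      have : ((sc (χ (A s t hst)) : V ≃ₗ[ℂ] V) : V →ₗ[ℂ] V) =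
          (χ (A s t hst) : ℂ) • LinearMap.id := by
        ext x
        rfl
      rw [this, LinearMap.det_smul, LinearMap.det_id, mul_one]
    have e3 : (χ (A s t hst)) ^ (Module.finrank ℂ V) =
        LinearEquiv.det (fam ρ s t) * (LinearEquiv.det (τ (q (A s t hst))))⁻¹ := by
      rw [e2, mul_inv_cancel_right]
    have h3 : IsOfFinOrder ((χ (A s t hst)) ^ (Module.finrank ℂ V)) := by
      rw [e3]
      exact (hB s t).mul (hw _).inv
    have hpos : 0 < Module.finrank ℂ V := Module.finrank_pos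
    rw [isOfFinOrder_iff_pow_eq_one] at h3 ⊢
    obtain ⟨k, hk, h4⟩ := h3
    exact ⟨Module.finrank ℂ V * k, Nat.mul_pos hpos hk, by rw [pow_mul, h4]⟩
  obtain ⟨N, hN, -, h5⟩ := common_exp (t := fun _ : Fin n => (1 : ℂˣ))
    (fun _ => IsOfFinOrder.one) hχ
  exact ⟨N, hN, h5⟩

/-- two commuting automorphisms -/
theorem RegG.of_reg {t : V ≃ₗ[ℂ] V} (h : Reg (t : V →ₗ[ℂ] V)) : RegG t := by
  intro X Y hX hY
  have key : ∀ X : V ≃ₗ[ℂ] V, Commute t X →
      Commute (S := Module.End ℂ V) (t : V →ₗ[ℂ] V) (X : V →ₗ[ℂ] V) := by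
    intro X hX
    ext x
    exact LinearEquiv.congr_fun hX.eq x
  have h1 := h _ _ (key X hX) (key Y hY)
  refine LinearEquiv.ext fun x => ?_
  exact LinearMap.congr_fun h1.eq x

/-- an irreducible representation such that the generators on each strand act irreducibly or as
scalars and such that some generator is regular comes from the line minus three points -/
theorem exists_line [FiniteDimensional ℂ V] [Nontrivial V]
    (ρ : Representation ℂ (PureBraid n) V) [ρ.IsIrreducible] (hS : SchurP (fam ρ)) {i j : Fin n}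
    (hij : i < j) (hr : Reg (ρ (A i j hij))) (hsc : ¬ Cen (fam ρ i j)) :
    ∃ (q : PureBraid n →* FreeGroup (Fin 2)) (σ : Representation ℂ (FreeGroup (Fin 2)) V)
      (χ : PureBraid n →* ℂˣ), ToLine q ∧ (∀ g, ρ g = (χ g : ℂ) • σ (q g)) ∧
      (LocalRoots ρ → ∃ N : ℕ, 0 < N ∧ ∀ g, χ g ^ N = 1) := by
  have hr' : RegG (fam ρ i j) := by
    apply RegG.of_reg
    have : ((fam ρ i j : V ≃ₗ[ℂ] V) : V →ₗ[ℂ] V) = ρ (A i j hij) := by
      ext x; exact fam_lt ρ hij x
    rwa [this]
  have hi : Act (fam ρ) i := ⟨j, hij.ne', hsc⟩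
  have hj : Act (fam ρ) j := ⟨i, hij.ne, by rw [(fam_pb ρ).symm j i]; exact hsc⟩
  obtain ⟨q, τ, hq, h0, h1, hc⟩ := exists_factor (toEq ρ)
    (three_or_cross (fam_pb ρ) hS hij hr' hi hj)
  obtain ⟨χ, hχ⟩ := exists_chi ρ (τ.comp q) hc
  refine ⟨q, (LinearEquiv.automorphismGroup.toLinearMapMonoidHom).comp τ, χ, hq, ?_, ?_⟩
  · intro g
    ext x
    exact hχ g x
  · intro hroot
    exact chi_fin ρ hroot q τ χ h0 h1 hχ

end Pool.Agent.PB3
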