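import Pool.Agent.PB3.Active

/-!
# A regular generator: three or four active strands
-/

set_option autoImplicit false

namespace Pool.Agent.PB3

open Pool.Agent.Conf14 (PB)

variable {n : ℕ} {Γ : Type*} [Group Γ] {a : Fin n → Fin n → Γ}

theorem cen_of_not_act (h : PB a) {s t : Fin n} (hst : s ≠ t) (hs : ¬ (Act a s ∧ Act a t)) :
    Cen (a s t) := by
  by_contra hc
  apply hs
  refine ⟨⟨t, hst.symm, hc⟩, ⟨s, hst, ?_⟩⟩
  rw [h.symm t s]
  exact hc

/-- **A regular generator.** -/
theorem three_or_cross (h : PB a) (hS : SchurP a) {l m : Fin n} (hlm : l < m)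
    (hr : RegG (a l m)) (hl : Act a l) (hm : Act a m) : Three a ∨ Cross a := by
  classical
  set T : Finset (Fin n) := Finset.univ.filter (fun s => Act a s) with hT
  have memT : ∀ s, s ∈ T ↔ Act a s := fun s => by rw [hT]; simp
  have hlT : l ∈ T := (memT l).2 hl
  have hmT : m ∈ T := (memT m).2 hm
  have hsub : ({l, m} : Finset (Fin n)) ⊆ T := by
    intro x hx
    rcases Finset.mem_insert.1 hx with rfl | hx
    · exact hlT
    · rw [Finset.mem_singleton.1 hx]; exact hmT
  have hc2 : ({l, m} : Finset (Fin n)).card = 2 := Finset.card_pair hlm.ne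
  have hcard : (T \ {l, m}).card + 2 = T.card := by
    rw [← hc2]
    exact Finset.card_sdiff_add_card_eq_card hsub
  have hle : (T \ {l, m}).card ≤ 2 := by
    by_contra hgt
    push Not at hgt
    obtain ⟨i, j, k, hi, hj, hk, hij, hik, hjk⟩ := Finset.two_lt_card_iff.1 hgt
    simp only [Finset.mem_sdiff, Finset.mem_insert, Finset.mem_singleton, not_or] at hi hj hk
    exact no_five h hS hlm hr ((memT i).1 hi.1) ((memT j).1 hj.1) ((memT k).1 hk.1) hij hik hjk
      hi.2.1 hi.2.2 hj.2.1 hj.2.2 hk.2.1 hk.2.2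
  have hge : 1 ≤ (T \ {l, m}).card := by
    by_contra hlt
    push Not at hlt
    have h0 : T \ {l, m} = ∅ := Finset.card_eq_zero.1 (by omega)
    have hother : ∀ s, s ≠ l → s ≠ m → ¬ Act a s := by
      intro s h1 h2 h3
      have : s ∈ T \ {l, m} := by
        rw [Finset.mem_sdiff]
        exact ⟨(memT s).2 h3, by simp [h1, h2]⟩
      rw [h0] at this
      exact absurd this (Finset.notMem_empty s)
    have hcen : Cen (a l m) := by
      apply hS l hl
      intro j hj
      by_cases hjm : j = m
      · subst hjm; exact Commute.refl _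
      · exact (cen_of_not_act h hj.symm (fun h' => hother j hj hjm h'.2) _).symm
    exact not_cen h hS hl hm hlm.ne hcen
  rcases (by omega : T.card = 3 ∨ T.card = 4) with h3 | h4
  · left
    set f := T.orderEmbOfFin h3 with hf
    have hmem : ∀ s, Act a s ↔ (s = f 0 ∨ s = f 1 ∨ s = f 2) := by
      intro s
      have h1 : (s ∈ Set.range f) ↔ s ∈ T := by
        rw [hf, Finset.range_orderEmbOfFin]; exact Finset.mem_coe
      rw [← memT, ← h1]
      constructor
      · rintro ⟨x, rfl⟩
        fin_cases x
        · exact Or.inl rfl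
        · exact Or.inr (Or.inl rfl)
        · exact Or.inr (Or.inr rfl)
      · rintro (h | h | h)
        · exact ⟨_, h.symm⟩
        · exact ⟨_, h.symm⟩
        · exact ⟨_, h.symm⟩
    have h01 : f 0 < f 1 := f.strictMono (by decide)
    have h12 : f 1 < f 2 := f.strictMono (by decide)
    have hother : ∀ s t, s ≠ t → ¬ ((s = f 0 ∨ s = f 1 ∨ s = f 2) ∧
        (t = f 0 ∨ t = f 1 ∨ t = f 2)) → Cen (a s t) := by
      intro s t hst hn
      refine cen_of_not_act h hst fun h' => hn ⟨(hmem s).1 h'.1, (hmem t).1 h'.2⟩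
    refine ⟨f 0, f 1, f 2, h01, h12, ?_, hother⟩
    refine hS (f 0) ((hmem _).2 (Or.inl rfl)) _ fun j hj => ?_
    by_cases h1 : j = f 1
    · rw [h1]; exact h.t0 h01 h12
    by_cases h2 : j = f 2
    · rw [h2]; exact h.t1 _ _ _ h01 h12
    · exact (hother (f 0) j hj.symm (fun h' => by
        rcases h'.2 with h' | h' | h'
        · exact hj h'
        · exact h1 h'
        · exact h2 h') _).symm
  · right
    set f := T.orderEmbOfFin h4 with hf
    have hrange : ∀ s, s ∈ T ↔ ∃ x, f x = s := by
      intro s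
      have h1 : (s ∈ Set.range f) ↔ s ∈ T := by
        rw [hf, Finset.range_orderEmbOfFin]; exact Finset.mem_coe
      rw [← h1]
      rfl
    have hmem : ∀ s, Act a s ↔ (s = f 0 ∨ s = f 1 ∨ s = f 2 ∨ s = f 3) := by
      intro s
      rw [← memT, hrange]
      constructor
      · rintro ⟨x, rfl⟩
        fin_cases x
        · exact Or.inl rfl
        · exact Or.inr (Or.inl rfl)
        · exact Or.inr (Or.inr (Or.inl rfl))
        · exact Or.inr (Or.inr (Or.inr rfl))
      · rintro (h | h | h | h)
        · exact ⟨_, h.symm⟩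
        · exact ⟨_, h.symm⟩
        · exact ⟨_, h.symm⟩
        · exact ⟨_, h.symm⟩
    have h01 : f 0 < f 1 := f.strictMono (by decide)
    have h12 : f 1 < f 2 := f.strictMono (by decide)
    have h23 : f 2 < f 3 := f.strictMono (by decide)
    have hother : ∀ s t, s ≠ t → ¬ ((s = f 0 ∨ s = f 1 ∨ s = f 2 ∨ s = f 3) ∧
        (t = f 0 ∨ t = f 1 ∨ t = f 2 ∨ t = f 3)) → Cen (a s t) := by
      intro s t hst hn
      refine cen_of_not_act h hst fun h' => hn ⟨(hmem s).1 h'.1, (hmem t).1 h'.2⟩
    have hSch : ∀ x : Fin 4, ∀ U : Γ, (∀ y : Fin 4, y ≠ x → Commute U (a (f x) (f y))) →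
        Cen U := by
      intro x U hU
      refine hS (f x) ((memT _).1 ((hrange _).2 ⟨x, rfl⟩)) _ fun j hj => ?_
      by_cases hjT : ∃ y, f y = j
      · obtain ⟨y, rfl⟩ := hjT
        exact hU y (fun h' => hj (by rw [h']))
      · refine (hother (f x) j hj.symm (fun h' => hjT ?_) _).symm
        rcases h'.2 with h' | h' | h' | h'
        · exact ⟨_, h'.symm⟩
        · exact ⟨_, h'.symm⟩
        · exact ⟨_, h'.symm⟩
        · exact ⟨_, h'.symm⟩
    have hp : PB4 (a (f 0) (f 1)) (a (f 0) (f 2)) (a (f 0) (f 3)) (a (f 1) (f 2))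
        (a (f 1) (f 3)) (a (f 2) (f 3)) := PB.four h h01 h12 h23
    have hs : Sch (a (f 0) (f 1)) (a (f 0) (f 2)) (a (f 0) (f 3)) (a (f 1) (f 2))
        (a (f 1) (f 3)) (a (f 2) (f 3)) := by
      refine ⟨fun U e1 e2 e3 => hSch 0 U fun y hy => ?_, fun U e1 e2 e3 => hSch 1 U fun y hy => ?_,
        fun U e1 e2 e3 => hSch 2 U fun y hy => ?_, fun U e1 e2 e3 => hSch 3 U fun y hy => ?_⟩
      · fin_cases y
        · exact absurd rfl hy
        · exact e1
        · exact e2
        · exact e3
      · fin_cases y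
        · have := h.symm (f 0) (f 1)
          rw [this] at e1
          exact e1
        · exact absurd rfl hy
        · exact e2
        · exact e3
      · fin_cases y
        · have := h.symm (f 0) (f 2)
          rw [this] at e1
          exact e1
        · have := h.symm (f 1) (f 2)
          rw [this] at e2
          exact e2
        · exact absurd rfl hy
        · exact e3
      · fin_cases y
        · have := h.symm (f 0) (f 3)
          rw [this] at e1
          exact e1
        · have := h.symm (f 1) (f 3)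
          rw [this] at e2
          exact e2
        · have := h.symm (f 2) (f 3)
          rw [this] at e3
          exact e3
        · exact absurd rfl hy
    have hreg : RegG (a (f 0) (f 1)) ∨ RegG (a (f 0) (f 2)) ∨ RegG (a (f 0) (f 3)) ∨
        RegG (a (f 1) (f 2)) ∨ RegG (a (f 1) (f 3)) ∨ RegG (a (f 2) (f 3)) := by
      obtain ⟨x, rfl⟩ := (hrange l).1 hlT
      obtain ⟨y, rfl⟩ := (hrange m).1 hmT
      have hxy : x < y := by
        by_contra hn
        exact absurd hlm (not_lt.2 (f.monotone (not_lt.1 hn)))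
      have hx : x = 0 ∨ x = 1 ∨ x = 2 ∨ x = 3 := by
        fin_cases x
        · exact Or.inl rfl
        · exact Or.inr (Or.inl rfl)
        · exact Or.inr (Or.inr (Or.inl rfl))
        · exact Or.inr (Or.inr (Or.inr rfl))
      have hy : y = 0 ∨ y = 1 ∨ y = 2 ∨ y = 3 := by
        fin_cases y
        · exact Or.inl rfl
        · exact Or.inr (Or.inl rfl)
        · exact Or.inr (Or.inr (Or.inl rfl))
        · exact Or.inr (Or.inr (Or.inr rfl))
      rcases hx with hx | hx | hx | hx <;> rcases hy with hy | hy | hy | hy <;>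
        rw [hx, hy] at hr hxy <;> first | tauto | exact absurd hxy (by decide)
    exact ⟨f 0, f 1, f 2, f 3, h01, h12, h23, hp.cross hs (hp.all hs hreg), hother⟩

end Pool.Agent.PB3
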